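import Mathlib
import Pool.Agent.GGX.Arith3

/-!
# Arithmetic for the exact trade-off
-/

namespace Pool.Agent.GGZ

open Real Pool.Agent.GGX

/-- the bound for the number of the bad arrays, in the form of `card_bad2` -/
theorem bad_bound5 (n p r C : ℕ) (ε : ℝ) (hε : 0 < ε) (hn : 8 ≤ n)
    (hC : 21 * 192 / ε + 32 ≤ C) (hp : n ^ C ≤ p) (hr : ε * n / 192 ≤ r) :
    4 * n * ((n + 1) ^ (2 + 7 * n + 15 * r) * (8 ^ n * 4 ^ r)) ≤ (p - 1) ^ r := by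
  have hn1R : (1 : ℝ) ≤ n := by
    have : 1 ≤ n := by omega
    exact_mod_cast this
  have hn0 : (0 : ℝ) < n := by linarith
  have e1 : n + 1 ≤ n ^ 2 := by nlinarith
  have h1 : 4 * n * ((n + 1) ^ (2 + 7 * n + 15 * r) * (8 ^ n * 4 ^ r)) ≤
      n ^ (21 * n + 31 * r) := by
    calc 4 * n * ((n + 1) ^ (2 + 7 * n + 15 * r) * (8 ^ n * 4 ^ r))
        ≤ (n * n) * ((n ^ 2) ^ (2 + 7 * n + 15 * r) * (n ^ n * n ^ r)) := by
          refine Nat.mul_le_mul (Nat.mul_le_mul_right _ (by omega)) ?_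
          refine Nat.mul_le_mul (Nat.pow_le_pow_left e1 _) ?_
          exact Nat.mul_le_mul (Nat.pow_le_pow_left hn _) (Nat.pow_le_pow_left (by omega) _)
      _ = n ^ (6 + 15 * n + 31 * r) := by
          rw [← pow_mul, ← pow_two, ← pow_add, ← pow_add, ← pow_add]
          congr 1
          ring
      _ ≤ n ^ (21 * n + 31 * r) := Nat.pow_le_pow_right (by omega) (by omega)
  have hC32 : 32 ≤ C := by
    have h3 : (0 : ℝ) ≤ 21 * 192 / ε := by positivity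
    have h4 : (32 : ℝ) ≤ C := by linarith
    exact_mod_cast h4
  have h2 : n ^ (21 * n + 31 * r) ≤ n ^ ((C - 1) * r) := by
    refine Nat.pow_le_pow_right (by omega) ?_
    have h3 : (21 : ℝ) * n + 31 * r ≤ (C - 1) * r := by
      have hr0 : (0 : ℝ) ≤ r := Nat.cast_nonneg _
      have h5 : (n : ℝ) ≤ 192 / ε * r := by
        rw [div_mul_eq_mul_div, le_div_iff₀ hε]
        linarith
      have h6 : (21 * 192 / ε + 31) * (r : ℝ) ≤ (C - 1) * r :=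
        mul_le_mul_of_nonneg_right (by linarith) hr0
      have h7 : (21 * 192 / ε + 31) * (r : ℝ) = 21 * (192 / ε * r) + 31 * r := by ring
      linarith
    have h4 : ((C - 1 : ℕ) : ℝ) = (C : ℝ) - 1 := by
      rw [Nat.cast_sub (by omega)]
      simp
    have h5 : ((21 * n + 31 * r : ℕ) : ℝ) ≤ (((C - 1) * r : ℕ) : ℝ) := by
      push_cast
      rw [h4]
      exact h3
    exact_mod_cast h5
  have h3 : n ^ (C - 1) ≤ p - 1 := by
    have h4 : n ^ C = n ^ (C - 1) * n := by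
      rw [← pow_succ]
      congr 1
      omega
    have h5 : 1 ≤ n ^ (C - 1) := Nat.one_le_pow _ _ (by omega)
    have h6 : n ^ (C - 1) * 2 ≤ n ^ (C - 1) * n := Nat.mul_le_mul_left _ (by omega)
    omega
  calc 4 * n * ((n + 1) ^ (2 + 7 * n + 15 * r) * (8 ^ n * 4 ^ r))
      ≤ n ^ (21 * n + 31 * r) := h1
    _ ≤ n ^ ((C - 1) * r) := h2
    _ = (n ^ (C - 1)) ^ r := by rw [pow_mul]
    _ ≤ (p - 1) ^ r := Nat.pow_le_pow_left h3 r

/-- **All parameters** for the exact theorem; `r = ⌈ε n / 192⌉`, `m = n² - n (T + 12 r)`. -/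
theorem params4 (ε : ℝ) (hε : 0 < ε) (hε1 : ε < 1) :
    ∃ C n0 : ℕ, ∀ n ≥ n0, 8 ≤ n ∧ ∀ p : ℕ, n ^ C ≤ p → n ^ 6 ≤ p ∧
      4 * n * ((n + 1) ^ (2 + 7 * n + 15 * ⌈ε * n / 192⌉₊) * (8 ^ n * 4 ^ ⌈ε * n / 192⌉₊)) ≤
        (p - 1) ^ ⌈ε * n / 192⌉₊ ∧
      ∀ T : ℕ, T ≤ n → ∃ M : ℕ,
        M * (T ^ 2 + 1) + n ^ 2 * (T ^ 2 + 1) + T ^ 2 ≤ p ∧
        ∀ E F : ℕ, (E : ℝ) ≤ ε / 8 * (n : ℝ) ^ 2 → (F : ℝ) ≤ (p : ℝ) ^ (ε / 8) →
        ∀ m : ℕ, m = n ^ 2 - n * (T + 12 * ⌈ε * n / 192⌉₊) →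
        (p : ℝ) ^ ((n : ℝ) * (n - T) - ε * (n : ℝ) ^ 2) * (m.choose (m - E) : ℝ) *
          ((m + F).choose (m - E) : ℝ) ≤ ((M + m).choose (m - E) : ℝ) := by
  obtain ⟨C1, hC1⟩ := exists_nat_ge (21 * 192 / ε + 32)
  obtain ⟨n1, hn1⟩ := exists_nat_ge (192 / ε)
  refine ⟨max 6 C1, max 8 n1, ?_⟩
  intro n hn
  have hn8 : 8 ≤ n := (le_max_left _ _).trans hn
  have hnn1 : n1 ≤ n := (le_max_right _ _).trans hn
  refine ⟨hn8, ?_⟩
  intro p hp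
  set C : ℕ := max 6 C1 with hC
  have hCR : 21 * 192 / ε + 32 ≤ (C : ℝ) := hC1.trans (by exact_mod_cast le_max_right _ _)
  have hC40 : 40 / ε ≤ (C : ℝ) := by
    refine le_trans ?_ hCR
    have : 40 / ε ≤ 21 * 192 / ε := div_le_div_of_nonneg_right (by norm_num) hε.le
    linarith
  have hp6 : n ^ 6 ≤ p := (Nat.pow_le_pow_right (by omega) (le_max_left _ _)).trans hp
  have hn8R : (8 : ℝ) ≤ n := by exact_mod_cast hn8
  have hn0 : (0 : ℝ) < n := by linarith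
  refine ⟨hp6, bad_bound5 n p _ C ε hε hn8 hCR hp (Nat.le_ceil _), ?_⟩
  intro T hTn
  set r : ℕ := ⌈ε * n / 192⌉₊ with hr
  set T' : ℕ := max T 1 with hT'
  have hT'1 : 1 ≤ T' := le_max_right _ _
  have hTT' : T ≤ T' := le_max_left _ _
  have hT'n : T' ≤ n := max_le hTn (by omega)
  have hT2 : T' ^ 2 ≤ n ^ 2 := Nat.pow_le_pow_left hT'n 2
  have hT2' : T ^ 2 ≤ T' ^ 2 := Nat.pow_le_pow_left hTT' 2
  set M : ℕ := (p - (n ^ 2 * (T' ^ 2 + 1) + T' ^ 2)) / (T' ^ 2 + 1) with hM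
  have hpbig : 8 * n ^ 2 * (n ^ 2 + 2) ≤ p := by
    refine le_trans ?_ hp6
    have e1 : n ^ 2 + 2 ≤ 2 * n ^ 2 := by nlinarith
    have e2 : 16 ≤ n ^ 2 := by nlinarith
    calc 8 * n ^ 2 * (n ^ 2 + 2) ≤ 8 * n ^ 2 * (2 * n ^ 2) := Nat.mul_le_mul_left _ e1
      _ = 16 * (n ^ 2 * n ^ 2) := by ring
      _ ≤ n ^ 2 * (n ^ 2 * n ^ 2) := Nat.mul_le_mul_right _ e2
      _ = n ^ 6 := by ring
  have hsub : n ^ 2 * (T' ^ 2 + 1) + T' ^ 2 ≤ p := by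
    refine le_trans ?_ hpbig
    have e1 : n ^ 2 * (T' ^ 2 + 1) ≤ n ^ 2 * (n ^ 2 + 2) := Nat.mul_le_mul_left _ (by omega)
    have e2 : T' ^ 2 ≤ n ^ 2 * (n ^ 2 + 2) := by
      calc T' ^ 2 ≤ n ^ 2 := hT2
        _ = n ^ 2 * 1 := by ring
        _ ≤ n ^ 2 * (n ^ 2 + 2) := Nat.mul_le_mul_left _ (by omega)
    calc n ^ 2 * (T' ^ 2 + 1) + T' ^ 2 ≤ n ^ 2 * (n ^ 2 + 2) + n ^ 2 * (n ^ 2 + 2) :=
          Nat.add_le_add e1 e2
      _ = 2 * (n ^ 2 * (n ^ 2 + 2)) := by ring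
      _ ≤ 8 * (n ^ 2 * (n ^ 2 + 2)) := Nat.mul_le_mul_right _ (by norm_num)
      _ = 8 * n ^ 2 * (n ^ 2 + 2) := by ring
  have hMle : M * (T' ^ 2 + 1) + n ^ 2 * (T' ^ 2 + 1) + T' ^ 2 ≤ p := by
    have : M * (T' ^ 2 + 1) ≤ p - (n ^ 2 * (T' ^ 2 + 1) + T' ^ 2) := Nat.div_mul_le_self _ _
    omega
  have hMge : (p : ℝ) / (4 * (T' : ℝ) ^ 2) ≤ M := by
    refine greedy_large n T' p M hT'1 hT'n hpbig ?_
    have h1 : p - (n ^ 2 * (T' ^ 2 + 1) + T' ^ 2) < (M + 1) * (T' ^ 2 + 1) := by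
      have := Nat.lt_mul_div_succ (p - (n ^ 2 * (T' ^ 2 + 1) + T' ^ 2)) (Nat.succ_pos (T' ^ 2))
      rw [mul_comm (M + 1)]
      exact this
    omega
  refine ⟨M, ?_, ?_⟩
  · have h1 : M * (T ^ 2 + 1) ≤ M * (T' ^ 2 + 1) := Nat.mul_le_mul_left _ (by omega)
    have h2 : n ^ 2 * (T ^ 2 + 1) ≤ n ^ 2 * (T' ^ 2 + 1) := Nat.mul_le_mul_left _ (by omega)
    omega
  · intro E F hE hF m hm
    refine power_bound3 n T' p M m E F C _ ε hε hε1 hn8 hT'1 hT'n hC40 hp hMge ?_ ?_ hE hF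
    · have h1 : (n : ℝ) ^ 2 - n * (T + 12 * r) ≤ m := by
        have h2 : n ^ 2 ≤ m + n * (T + 12 * r) := by omega
        have h3 : ((n ^ 2 : ℕ) : ℝ) ≤ ((m + n * (T + 12 * r) : ℕ) : ℝ) := by exact_mod_cast h2
        push_cast at h3
        linarith
      have h2 : (r : ℝ) ≤ ε * n / 192 + 1 := (Nat.ceil_lt_add_one (by positivity)).le
      have h3 : (1 : ℝ) ≤ ε * n / 192 := by
        have h4 : 192 / ε ≤ (n : ℝ) := hn1.trans (by exact_mod_cast hnn1)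
        rw [div_le_iff₀ hε] at h4
        linarith
      have h4 : (n : ℝ) * (12 * r) ≤ n * (ε * n / 8) :=
        mul_le_mul_of_nonneg_left (by linarith) hn0.le
      nlinarith
    · rw [hm]
      exact Nat.sub_le _ _

end Pool.Agent.GGZ
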