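import Mathlib
import Pool.Agent.GGX.Tri

/-!
# Slopes do not help: definitions

For a class of queries with slopes `± c` the position of the query `i` for the sum `z` is, after
division by `c`, `± z + γ i`.
-/

namespace Pool.Agent.GGZ

open Finset Pool.Agent.GGX Pool.Agent.GGX.Tri

section defs

variable {K : Type*} [Field K] {n T : ℕ}

/-- the sign -/
def sg (K : Type*) [Field K] (b : Bool) : K := if b then 1 else -1

theorem sg_ne_zero (b : Bool) : sg K b ≠ 0 := by
  cases b <;> simp [sg]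

theorem sg_mul_self (b : Bool) : sg K b * sg K b = 1 := by
  cases b <;> simp [sg]

/-- the position of the query `i` for the sum `z` -/
def pos (s : Fin T → Bool) (γ : Fin T → K) (f : Ix n → K) (i : Fin T) (z : Fin n × Fin n) : K :=
  sg K (s i) * sm f z + γ i

/-- the coincidence `e = ((i, j), (z, z'))` of the position of the query `i` for the sum `z` and
the position of the query `j` for the sum `z'` -/
def Holds (s : Fin T → Bool) (γ : Fin T → K) (f : Ix n → K) (e : Pat n T) : Prop :=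
  pos s γ f e.1.1 e.2.1 = pos s γ f e.1.2 e.2.2

/-- the linear part of a coincidence -/
def wt (s : Fin T → Bool) (e : Pat n T) (f : Ix n → K) : K :=
  sg K (s e.1.1) * sm f e.2.1 - sg K (s e.1.2) * sm f e.2.2

/-- Events: three queries, three sums `z`, three sums `z'`. -/
abbrev Ev (n T : ℕ) := Bool × (Fin 3 → Fin T) × (Fin 3 → Fin n × Fin n) × (Fin 3 → Fin n × Fin n)

/-- the value of an event, it happens if this is zero -/
def val (s : Fin T → Bool) (γ : Fin T → K) (v : Ev n T) (f : Ix n → K) : K :=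
  if v.1 then
    (pos s γ f (v.2.1 0) (v.2.2.2 0) - pos s γ f (v.2.1 1) (v.2.2.2 1)) *
        (sm f (v.2.2.1 0) - sm f (v.2.2.1 2)) -
      (pos s γ f (v.2.1 0) (v.2.2.2 0) - pos s γ f (v.2.1 2) (v.2.2.2 2)) *
        (sm f (v.2.2.1 0) - sm f (v.2.2.1 1))
  else pos s γ f (v.2.1 0) (v.2.2.2 0) - pos s γ f (v.2.1 1) (v.2.2.2 1)

/-- the two entries of a sum -/
def ix (z : Fin n × Fin n) : Finset (Ix n) := {Sum.inl z.1, Sum.inr z.2}

/-- the entries which occur in an event -/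
def supp (v : Ev n T) : Finset (Ix n) :=
  univ.biUnion fun m : Fin 3 => ix (v.2.2.1 m) ∪ ix (v.2.2.2 m)

theorem card_supp_le (v : Ev n T) : (supp v).card ≤ 12 := by
  unfold supp
  refine card_biUnion_le.trans ?_
  have h : ∀ m ∈ (univ : Finset (Fin 3)), (ix (v.2.2.1 m) ∪ ix (v.2.2.2 m)).card ≤ 4 := by
    intro m _
    have h1 : ∀ z : Fin n × Fin n, (ix z).card ≤ 2 := fun z => card_le_two
    have := card_union_le (ix (v.2.2.1 m)) (ix (v.2.2.2 m))
    have h2 := h1 (v.2.2.1 m)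
    have h3 := h1 (v.2.2.2 m)
    omega
  calc _ ≤ ∑ _m : Fin 3, 4 := sum_le_sum h
    _ = 12 := by simp

theorem sm_congr {f g : Ix n → K} {z : Fin n × Fin n} (h : ∀ x ∈ ix z, f x = g x) :
    sm f z = sm g z := by
  unfold sm
  rw [h (Sum.inl z.1) (by simp [ix]), h (Sum.inr z.2) (by simp [ix])]

theorem ix_subset_left (v : Ev n T) (m : Fin 3) : ix (v.2.2.1 m) ⊆ supp v :=
  subset_union_left.trans (subset_biUnion_of_mem (fun m : Fin 3 => ix (v.2.2.1 m) ∪ ix (v.2.2.2 m))
    (mem_univ m))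

theorem ix_subset_right (v : Ev n T) (m : Fin 3) : ix (v.2.2.2 m) ⊆ supp v :=
  subset_union_right.trans (subset_biUnion_of_mem (fun m : Fin 3 => ix (v.2.2.1 m) ∪ ix (v.2.2.2 m))
    (mem_univ m))

/-- the value depends on the entries of the support only -/
theorem val_congr (s : Fin T → Bool) (γ : Fin T → K) (v : Ev n T) {f g : Ix n → K}
    (h : ∀ x ∈ supp v, f x = g x) : val s γ v f = val s γ v g := by
  have h1 : ∀ m, sm f (v.2.2.1 m) = sm g (v.2.2.1 m) := fun m =>
    sm_congr fun x hx => h x (ix_subset_left v m hx)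
  have h2 : ∀ m, sm f (v.2.2.2 m) = sm g (v.2.2.2 m) := fun m =>
    sm_congr fun x hx => h x (ix_subset_right v m hx)
  unfold val pos
  simp only [h1, h2]

/-- the value depends on the differences of the shifts only -/
theorem val_shift (s : Fin T → Bool) (γ γ' : Fin T → K) (v : Ev n T) (f : Ix n → K)
    (h1 : γ (v.2.1 0) - γ (v.2.1 1) = γ' (v.2.1 0) - γ' (v.2.1 1))
    (h2 : γ (v.2.1 0) - γ (v.2.1 2) = γ' (v.2.1 0) - γ' (v.2.1 2)) :
    val s γ v f = val s γ' v f := by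
  unfold val pos
  have e1 : ∀ x y : K, x + γ (v.2.1 0) - (y + γ (v.2.1 1)) =
      x + γ' (v.2.1 0) - (y + γ' (v.2.1 1)) := fun x y => by linear_combination h1
  have e2 : ∀ x y : K, x + γ (v.2.1 0) - (y + γ (v.2.1 2)) =
      x + γ' (v.2.1 0) - (y + γ' (v.2.1 2)) := fun x y => by linear_combination h2
  rw [e1, e2]

theorem quad_line (a a' b b' c c' d d' : K) : ∃ c₀ c₁ c₂ : K, ∀ t : K,
    (a + t * a') * (b + t * b') - (c + t * c') * (d + t * d') = c₀ + c₁ * t + c₂ * t ^ 2 :=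
  ⟨a * b - c * d, a * b' + a' * b - c * d' - c' * d, a' * b' - c' * d', fun t => by ring⟩

/-- the value is quadratic on lines -/
theorem val_line (s : Fin T → Bool) (γ : Fin T → K) (v : Ev n T) (f g : Ix n → K) :
    ∃ c₀ c₁ c₂ : K, ∀ t : K, val s γ v (fun x => f x + t * (g x - f x)) =
      c₀ + c₁ * t + c₂ * t ^ 2 := by
  have h : ∀ z : Fin n × Fin n, ∀ t : K, sm (fun x => f x + t * (g x - f x)) z =
      sm f z + t * (sm g z - sm f z) := by
    intro z t
    unfold sm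
    ring
  have hp : ∀ (i : Fin T) (z : Fin n × Fin n) (t : K),
      pos s γ (fun x => f x + t * (g x - f x)) i z =
      pos s γ f i z + t * (pos s γ g i z - pos s γ f i z) := by
    intro i z t
    unfold pos
    rw [h]
    ring
  unfold val
  by_cases hv : v.1
  · simp only [hv, if_true, h, hp]
    obtain ⟨c₀, c₁, c₂, hc⟩ := quad_line
      (pos s γ f (v.2.1 0) (v.2.2.2 0) - pos s γ f (v.2.1 1) (v.2.2.2 1))
      ((pos s γ g (v.2.1 0) (v.2.2.2 0) - pos s γ g (v.2.1 1) (v.2.2.2 1)) -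
        (pos s γ f (v.2.1 0) (v.2.2.2 0) - pos s γ f (v.2.1 1) (v.2.2.2 1)))
      (sm f (v.2.2.1 0) - sm f (v.2.2.1 2))
      ((sm g (v.2.2.1 0) - sm g (v.2.2.1 2)) - (sm f (v.2.2.1 0) - sm f (v.2.2.1 2)))
      (pos s γ f (v.2.1 0) (v.2.2.2 0) - pos s γ f (v.2.1 2) (v.2.2.2 2))
      ((pos s γ g (v.2.1 0) (v.2.2.2 0) - pos s γ g (v.2.1 2) (v.2.2.2 2)) -
        (pos s γ f (v.2.1 0) (v.2.2.2 0) - pos s γ f (v.2.1 2) (v.2.2.2 2)))
      (sm f (v.2.2.1 0) - sm f (v.2.2.1 1))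
      ((sm g (v.2.2.1 0) - sm g (v.2.2.1 1)) - (sm f (v.2.2.1 0) - sm f (v.2.2.1 1)))
    refine ⟨c₀, c₁, c₂, fun t => ?_⟩
    rw [← hc t]
    ring
  · simp only [hv, hp, Bool.false_eq_true, if_false]
    refine ⟨pos s γ f (v.2.1 0) (v.2.2.2 0) - pos s γ f (v.2.1 1) (v.2.2.2 1),
      (pos s γ g (v.2.1 0) (v.2.2.2 0) - pos s γ g (v.2.1 1) (v.2.2.2 1)) -
        (pos s γ f (v.2.1 0) (v.2.2.2 0) - pos s γ f (v.2.1 1) (v.2.2.2 1)), 0, fun t => ?_⟩
    ring

/-- The blocks `blk` and the coincidences `e` determine the differences of the shifts inside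
the blocks. -/
def Det (K : Type*) [Field K] {n T m : ℕ} (s : Fin T → Bool) (e : Fin m → Pat n T)
    (blk : Fin T → Fin T) : Prop :=
  ∀ (γ γ' : Fin T → K) (f f' : Ix n → K), (∀ k, Holds s γ f (e k)) →
    (∀ k, Holds s γ' f' (e k)) → (∀ k, wt s (e k) f = wt s (e k) f') →
    ∀ i j, blk i = blk j → γ i - γ j = γ' i - γ' j

end defs

end Pool.Agent.GGZ
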