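import Mathlib
import Pool.Agent.GGZ.Defs

/-!
# Slopes do not help: counting the arrays with many independent events
-/

namespace Pool.Agent.GGZ

open Finset Pool.Agent.GGX Pool.Agent.GGX.Tri

section sz

variable {K : Type*} [Field K] [Fintype K] [DecidableEq K] {σ : Type*} [Fintype σ]
  [DecidableEq σ]

theorem quad_roots (c₀ c₁ c₂ : K) (h : c₀ ≠ 0) :
    #{t : K | c₀ + c₁ * t + c₂ * t ^ 2 = 0} ≤ 2 := by
  by_contra hcon
  push Not at hcon
  rw [Finset.two_lt_card] at hcon
  obtain ⟨a, ha, b, hb, c, hc, hab, hac, hbc⟩ := hcon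
  simp only [mem_filter, mem_univ, true_and] at ha hb hc
  have h1 : c₁ + c₂ * (a + b) = 0 := by
    have : (a - b) * (c₁ + c₂ * (a + b)) = 0 := by linear_combination ha - hb
    exact (mul_eq_zero.mp this).resolve_left (sub_ne_zero.mpr hab)
  have h2 : c₁ + c₂ * (a + c) = 0 := by
    have : (a - c) * (c₁ + c₂ * (a + c)) = 0 := by linear_combination ha - hc
    exact (mul_eq_zero.mp this).resolve_left (sub_ne_zero.mpr hac)
  have h3 : c₂ = 0 := by
    have : (b - c) * c₂ = 0 := by linear_combination h1 - h2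
    exact (mul_eq_zero.mp this).resolve_left (sub_ne_zero.mpr hbc)
  rw [h3] at h1 ha
  have h4 : c₁ = 0 := by linear_combination h1
  rw [h4] at ha
  exact h (by linear_combination ha)

theorem sz_step (Z : Finset (σ → K)) (S : Finset σ)
    (hZ : ∀ f ∈ Z, ∀ g : σ → K, (∀ x ∉ S, g x = f x) → g ∈ Z)
    (P : (σ → K) → K) (hP : ∀ f g : σ → K, (∀ x ∈ S, f x = g x) → P f = P g)
    (hq : ∀ f g : σ → K, ∃ c₀ c₁ c₂ : K, ∀ t : K,
      P (fun x => f x + t * (g x - f x)) = c₀ + c₁ * t + c₂ * t ^ 2)
    (f₀ : σ → K) (h₀ : P f₀ ≠ 0) :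
    #{f ∈ Z | P f = 0} * (Fintype.card K - 1) ≤ 2 * #Z := by
  have hcK : #{t : K | t ≠ 0} = Fintype.card K - 1 := by
    rw [filter_ne', card_erase_of_mem (mem_univ _), card_univ]
  rw [← hcK, ← card_product]
  refine card_le_mul_card_image_of_maps_to
    (f := fun u : (σ → K) × K => fun x => if x ∈ S then f₀ x + u.2 * (u.1 x - f₀ x) else u.1 x)
    ?_ 2 ?_
  · intro u hu
    rw [mem_product, mem_filter] at hu
    refine hZ u.1 hu.1.1 _ (fun x hx => ?_)
    simp only [if_neg hx]
  · intro g _
    obtain ⟨c₀, c₁, c₂, hc⟩ := hq f₀ g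
    have hc₀ : c₀ ≠ 0 := by
      have h1 := hc 0
      simp only [zero_mul, add_zero, mul_zero, ne_eq, OfNat.ofNat_ne_zero, not_false_eq_true,
        zero_pow] at h1
      rw [← h1]
      exact h₀
    refine le_trans (card_le_card_of_injOn (fun u => u.2⁻¹) ?_ ?_) (quad_roots c₀ c₁ c₂ hc₀)
    · rintro ⟨f, t⟩ hu
      simp only [coe_filter, mem_product, mem_filter, mem_univ, true_and,
        Set.mem_ofPred_eq] at hu ⊢
      obtain ⟨⟨⟨-, hf⟩, ht⟩, hg⟩ := hu
      rw [← hc, ← hf]
      refine hP _ _ (fun x hx => ?_)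
      have hgx := congrFun hg x
      simp only [if_pos hx] at hgx
      rw [← hgx]
      field_simp
      ring
    · rintro ⟨f, t⟩ hu ⟨f', t'⟩ hu' htt
      simp only [coe_filter, mem_product, mem_filter, mem_univ, true_and,
        Set.mem_ofPred_eq] at hu hu'
      obtain ⟨⟨⟨-, -⟩, ht⟩, hg⟩ := hu
      obtain ⟨⟨⟨-, -⟩, ht'⟩, hg'⟩ := hu'
      have h1 : t = t' := inv_injective htt
      subst h1
      refine Prod.ext (funext fun x => ?_) rfl
      have h2 := congrFun (hg.trans hg'.symm) x
      by_cases hx : x ∈ S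
      · simp only [if_pos hx] at h2
        have h3 : t * f x = t * f' x := by linear_combination h2
        exact mul_left_cancel₀ ht h3
      · simp only [if_neg hx] at h2
        exact h2

theorem sz_prod {r : ℕ} (R : Finset σ) (S : Fin r → Finset σ) (hSR : ∀ t, S t ⊆ R)
    (hS : ∀ t t', t ≠ t' → Disjoint (S t) (S t')) (P : Fin r → (σ → K) → K)
    (hP : ∀ t, ∀ f g : σ → K, (∀ x ∈ S t, f x = g x) → P t f = P t g)
    (hq : ∀ t, ∀ f g : σ → K, ∃ c₀ c₁ c₂ : K, ∀ u : K,
      P t (fun x => f x + u * (g x - f x)) = c₀ + c₁ * u + c₂ * u ^ 2)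
    (h₀ : ∀ t, ∃ f₀ : σ → K, P t f₀ ≠ 0) :
    #{f : σ → K | (∀ x ∉ R, f x = 0) ∧ ∀ t, P t f = 0} * (Fintype.card K - 1) ^ r ≤
      2 ^ r * Fintype.card K ^ #R := by
  have key : ∀ A : Finset (Fin r),
      #{f : σ → K | (∀ x ∉ R, f x = 0) ∧ ∀ t ∈ A, P t f = 0} * (Fintype.card K - 1) ^ #A ≤
        2 ^ #A * Fintype.card K ^ #R := by
    intro A
    induction A using Finset.induction_on with
    | empty =>
      simp only [notMem_empty, false_implies, implies_true, and_true, card_empty, pow_zero,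
        mul_one, one_mul]
      have h1 : ({f : σ → K | ∀ x ∉ R, f x = 0} : Finset (σ → K)) =
          Fintype.piFinset fun x => if x ∈ R then (univ : Finset K) else {0} := by
        ext f
        simp only [mem_filter, mem_univ, true_and, Fintype.mem_piFinset]
        refine forall_congr' fun x => ?_
        by_cases hx : x ∈ R <;> simp [hx]
      rw [h1, Fintype.card_piFinset]
      have h2 : ∀ x : σ, #(if x ∈ R then (univ : Finset K) else {0}) =
          if x ∈ R then Fintype.card K else 1 := by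
        intro x
        split_ifs <;> simp
      simp only [h2]
      rw [prod_ite_mem, univ_inter, prod_const]
    | insert t A ht ih =>
      rw [card_insert_of_notMem ht, pow_succ, pow_succ]
      obtain ⟨f₀, hf₀⟩ := h₀ t
      have h1 := sz_step
        ({f : σ → K | (∀ x ∉ R, f x = 0) ∧ ∀ t ∈ A, P t f = 0} : Finset (σ → K)) (S t) (by
          intro f hf g hg
          simp only [mem_filter, mem_univ, true_and] at hf ⊢
          refine ⟨fun x hx => ?_, fun t' ht' => ?_⟩
          · rw [hg x (fun h => hx (hSR t h))]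
            exact hf.1 x hx
          · rw [← hf.2 t' ht']
            refine hP t' _ _ (fun x hx => hg x (fun h => ?_))
            have hne : t ≠ t' := by
              rintro rfl
              exact ht ht'
            exact (disjoint_left.mp (hS t t' hne)) h hx)
        (P t) (hP t) (hq t) f₀ hf₀
      have h2 : ({f : σ → K | (∀ x ∉ R, f x = 0) ∧ ∀ t' ∈ insert t A, P t' f = 0} :
          Finset (σ → K)) =
          {f ∈ ({f : σ → K | (∀ x ∉ R, f x = 0) ∧ ∀ t ∈ A, P t f = 0} : Finset (σ → K)) |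
            P t f = 0} := by
        ext f
        simp only [mem_filter, mem_univ, true_and, mem_insert, forall_eq_or_imp]
        tauto
      rw [h2]
      calc _ = (_ * (Fintype.card K - 1)) * (Fintype.card K - 1) ^ #A := by ring
        _ ≤ (2 * _) * (Fintype.card K - 1) ^ #A := Nat.mul_le_mul_right _ h1
        _ = 2 * (_ * (Fintype.card K - 1) ^ #A) := by ring
        _ ≤ 2 * (2 ^ #A * Fintype.card K ^ #R) := Nat.mul_le_mul_left _ ih
        _ = _ := by ring
  have h := key univ
  simpa using h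

open Module in
/-- coordinates of a subspace -/
theorem exists_coord (V : Submodule K (σ → K)) : ∃ R : Finset σ,
    (∀ f ∈ V, (∀ x ∈ R, f x = 0) → f = 0) ∧ #R = finrank K V := by
  classical
  obtain ⟨R, hR, hmin⟩ := exists_min_image
    ((univ : Finset (Finset σ)).filter fun R => ∀ f ∈ V, (∀ x ∈ R, f x = 0) → f = 0) card
    ⟨univ, by
      rw [mem_filter]
      exact ⟨mem_univ _, fun f _ h => funext fun x => h x (mem_univ x)⟩⟩
  rw [mem_filter] at hR
  refine ⟨R, hR.2, le_antisymm ?_ ?_⟩
  · have h1 : ∀ x : R, ∃ v : V, (∀ y ∈ R, y ≠ x → v.1 y = 0) ∧ v.1 x ≠ 0 := by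
      rintro ⟨x, hx⟩
      have h2 : R.erase x ∉ (univ : Finset (Finset σ)).filter
          fun R => ∀ f ∈ V, (∀ x ∈ R, f x = 0) → f = 0 := by
        intro h
        have := hmin _ h
        have h3 := card_erase_lt_of_mem hx
        omega
      rw [mem_filter] at h2
      simp only [mem_univ, true_and, not_forall] at h2
      obtain ⟨f, hf, h3, h4⟩ := h2
      refine ⟨⟨f, hf⟩, fun y hy hne => h3 y (mem_erase.mpr ⟨hne, hy⟩), fun h5 => h4 ?_⟩
      refine hR.2 f hf (fun y hy => ?_)
      by_cases hyx : y = x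
      · rw [hyx]
        exact h5
      · exact h3 y (mem_erase.mpr ⟨hyx, hy⟩)
    choose v hv hv' using h1
    have hli : LinearIndependent K v := by
      rw [linearIndependent_iff']
      intro s g hg i hi
      have h2 : (∑ j ∈ s, g j • v j : V).1 i = 0 := by rw [hg]; rfl
      have h3 : (∑ j ∈ s, g j • v j : V).1 i = ∑ j ∈ s, g j * (v j).1 i := by
        rw [Submodule.coe_sum, Finset.sum_apply]
        simp
      rw [h3, sum_eq_single i] at h2
      · exact (mul_eq_zero.mp h2).resolve_right (hv' i)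
      · intro j _ hne
        rw [hv j i.1 i.2 (fun h => hne (Subtype.ext h.symm)), mul_zero]
      · intro h
        exact absurd hi h
    have h2 := hli.fintype_card_le_finrank
    simpa using h2
  · let φ : V →ₗ[K] (R → K) :=
      { toFun := fun v x => v.1 x
        map_add' := fun _ _ => rfl
        map_smul' := fun _ _ => rfl }
    have hφ : Function.Injective φ := by
      rw [injective_iff_map_eq_zero]
      intro v hv
      refine Subtype.ext (hR.2 v.1 v.2 (fun x hx => ?_))
      exact congrFun hv ⟨x, hx⟩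
    have h2 := LinearMap.finrank_le_finrank_of_injective hφ
    rw [Module.finrank_fintype_fun_eq_card] at h2
    simpa using h2

open Module in
theorem count_fib {m : ℕ} (Φ : (σ → K) →ₗ[K] (Fin m → K)) (R : Finset σ)
    (hR : #R = finrank K (LinearMap.ker Φ)) (G : Finset (σ → K)) (a b : ℕ)
    (hG : ∀ u, #{f ∈ G | Φ f = u} * a ≤ b * Fintype.card K ^ #R) :
    #G * a ≤ b * Fintype.card K ^ Fintype.card σ := by
  classical
  have h1 : #(G.image Φ) ≤ Fintype.card K ^ finrank K (LinearMap.range Φ) := by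
    rw [← Module.card_eq_pow_finrank (K := K) (V := LinearMap.range Φ)]
    rw [← card_univ]
    refine card_le_card_of_surjOn (fun v => v.1) ?_
    intro u hu
    rw [mem_coe, mem_image] at hu
    obtain ⟨f, -, rfl⟩ := hu
    exact ⟨⟨Φ f, LinearMap.mem_range_self Φ f⟩, mem_coe.mpr (mem_univ _), rfl⟩
  have h2 : finrank K (LinearMap.range Φ) + #R = Fintype.card σ := by
    rw [hR, LinearMap.finrank_range_add_finrank_ker, Module.finrank_fintype_fun_eq_card]
  calc #G * a = (∑ u ∈ G.image Φ, #{f ∈ G | Φ f = u}) * a := by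
        rw [← card_eq_sum_card_image]
    _ = ∑ u ∈ G.image Φ, #{f ∈ G | Φ f = u} * a := by rw [sum_mul]
    _ ≤ ∑ _u ∈ G.image Φ, b * Fintype.card K ^ #R := sum_le_sum fun u _ => hG u
    _ = #(G.image Φ) * (b * Fintype.card K ^ #R) := by rw [sum_const, smul_eq_mul]
    _ ≤ Fintype.card K ^ finrank K (LinearMap.range Φ) * (b * Fintype.card K ^ #R) :=
        Nat.mul_le_mul_right _ h1
    _ = b * Fintype.card K ^ Fintype.card σ := by
        rw [← h2, pow_add]
        ring

end sz

section pattern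

variable {K : Type*} [Field K] [Fintype K] {n T m r : ℕ}

/-- the linear parts of the coincidences -/
def wmap (K : Type*) [Field K] {n T m : ℕ} (s : Fin T → Bool) (e : Fin m → Pat n T) :
    (Ix n → K) →ₗ[K] (Fin m → K) where
  toFun f k := wt s (e k) f
  map_add' f g := by
    funext k
    simp only [wt, sm, Pi.add_apply]
    ring
  map_smul' c f := by
    funext k
    simp only [wt, sm, Pi.smul_apply, smul_eq_mul, RingHom.id_apply]
    ring

/-- the arrays with the coincidences `e` and the events `v` -/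
def Pt (s : Fin T → Bool) (e : Fin m → Pat n T) (v : Fin r → Ev n T) (f : Ix n → K) : Prop :=
  ∃ γ : Fin T → K, (∀ k, Holds s γ f (e k)) ∧
    ∀ t, val s γ (v t) f = 0 ∧ ∃ f₀ : Ix n → K, val s γ (v t) f₀ ≠ 0

open Classical in
open Module in
theorem card_pt (s : Fin T → Bool) (e : Fin m → Pat n T) (blk : Fin T → Fin T)
    (R : Finset (Ix n)) (v : Fin r → Ev n T) (hdet : Det K s e blk)
    (hv : ∀ t, blk ((v t).2.1 0) = blk ((v t).2.1 1) ∧ blk ((v t).2.1 0) = blk ((v t).2.1 2))
    (hdis : ∀ t t', t ≠ t' → Disjoint (supp (v t)) (supp (v t')))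
    (hR : ∀ t, supp (v t) ⊆ R)
    (hR1 : ∀ f : Ix n → K, (∀ k, wt s (e k) f = 0) → (∀ x ∈ R, f x = 0) → f = 0)
    (hR2 : #R = finrank K (LinearMap.ker (wmap K s e))) :
    #{f : Ix n → K | Pt s e v f} * (Fintype.card K - 1) ^ r ≤
      2 ^ r * Fintype.card K ^ (2 * n) := by
  have h2n : Fintype.card (Ix n) = 2 * n := by simp [two_mul]
  rw [← h2n]
  refine count_fib (wmap K s e) R hR2 _ _ _ (fun u => ?_)
  rcases ({f ∈ ({f : Ix n → K | Pt s e v f} : Finset (Ix n → K)) |
    wmap K s e f = u}).eq_empty_or_nonempty with h0 | ⟨f₁, hf₁⟩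
  · rw [h0]
    simp
  simp only [mem_filter, mem_univ, true_and] at hf₁
  obtain ⟨⟨γ₁, hH₁, hv₁⟩, hu₁⟩ := hf₁
  refine le_trans (Nat.mul_le_mul_right _ ?_) (sz_prod R (fun t => supp (v t)) hR hdis
    (fun t => val s γ₁ (v t)) (fun t f g h => val_congr s γ₁ (v t) h)
    (fun t => val_line s γ₁ (v t)) (fun t => (hv₁ t).2))
  refine card_le_card_of_injOn (fun f x => if x ∈ R then f x else 0) ?_ ?_
  · intro f hf
    simp only [coe_filter, mem_filter, mem_univ, true_and, Set.mem_ofPred_eq] at hf ⊢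
    obtain ⟨⟨γ, hH, hval⟩, hu⟩ := hf
    refine ⟨fun x hx => if_neg hx, fun t => ?_⟩
    have h1 : val s γ₁ (v t) (fun x => if x ∈ R then f x else 0) = val s γ₁ (v t) f :=
      val_congr s γ₁ (v t) (fun x hx => if_pos (hR t hx))
    rw [h1]
    have h2 := hdet γ γ₁ f f₁ hH hH₁ (fun k => by
      have := congrFun (hu.trans hu₁.symm) k
      exact this)
    rw [← val_shift s γ γ₁ (v t) f (h2 _ _ (hv t).1) (h2 _ _ (hv t).2)]
    exact (hval t).1
  · intro f hf f' hf' h
    simp only [coe_filter, mem_filter, mem_univ, true_and, Set.mem_ofPred_eq] at hf hf'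
    have h1 : f - f' = 0 := by
      refine hR1 _ (fun k => ?_) (fun x hx => ?_)
      · have h2 := congrFun (hf.2.trans hf'.2.symm) k
        have h3 := congrFun ((wmap K s e).map_sub f f') k
        have h4 : (wmap K s e) (f - f') k = wt s (e k) (f - f') := rfl
        rw [← h4, h3, Pi.sub_apply, h2, sub_self]
      · have h2 := congrFun h x
        simp only [if_pos hx] at h2
        rw [Pi.sub_apply, h2, sub_self]
    exact sub_eq_zero.mp h1

end pattern

end Pool.Agent.GGZ
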