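import Mathlib
import Pool.Agent.GGZ.Count

/-!
# Slopes do not help: the exceptional arrays
-/

namespace Pool.Agent.GGZ

open Finset Pool.Agent.GGX Pool.Agent.GGX.Tri

variable {K : Type*} [Field K] [Fintype K] {n T m r : ℕ}

/-- the parameters of a pattern: signs, coincidences, blocks, free entries, events -/
abbrev Par (n T m r : ℕ) :=
  (Fin T → Bool) × (Fin m → Pat n T) × (Fin T → Fin T) × Finset (Ix n) × (Fin r → Ev n T)

/-- admissible patterns -/
def Adm (K : Type*) [Field K] {n T m r : ℕ} (θ : Par n T m r) : Prop :=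
  Det K θ.1 θ.2.1 θ.2.2.1 ∧
  (∀ t, θ.2.2.1 ((θ.2.2.2.2 t).2.1 0) = θ.2.2.1 ((θ.2.2.2.2 t).2.1 1) ∧
    θ.2.2.1 ((θ.2.2.2.2 t).2.1 0) = θ.2.2.1 ((θ.2.2.2.2 t).2.1 2)) ∧
  (∀ t t', t ≠ t' → Disjoint (supp (θ.2.2.2.2 t)) (supp (θ.2.2.2.2 t'))) ∧
  (∀ t, supp (θ.2.2.2.2 t) ⊆ θ.2.2.2.1) ∧
  (∀ f : Ix n → K, (∀ k, wt θ.1 (θ.2.1 k) f = 0) → (∀ x ∈ θ.2.2.2.1, f x = 0) → f = 0) ∧
  #(θ.2.2.2.1) = Module.finrank K (LinearMap.ker (wmap K θ.1 θ.2.1))

open Classical in
/-- the arrays with `r` events with disjoint supports -/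
noncomputable def badTm (K : Type*) [Field K] [Fintype K] (n r T m : ℕ) : Finset (Ix n → K) :=
  (univ : Finset (Par n T m r)).biUnion fun θ =>
    if Adm K θ then univ.filter (Pt θ.1 θ.2.1 θ.2.2.2.2) else ∅

open Classical in
theorem card_badTm :
    (badTm K n r T m).card * (Fintype.card K - 1) ^ r ≤
      2 ^ T * (T ^ 2 * n ^ 4) ^ m * T ^ T * 4 ^ n * (2 * (T ^ 3 * n ^ 12)) ^ r *
        (2 ^ r * Fintype.card K ^ (2 * n)) := by
  have h2 : Fintype.card (Par n T m r) =
      2 ^ T * (T ^ 2 * n ^ 4) ^ m * T ^ T * 4 ^ n * (2 * (T ^ 3 * n ^ 12)) ^ r := by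
    simp only [Fintype.card_prod, Fintype.card_fun, Fintype.card_fin, Fintype.card_finset,
      Fintype.card_sum, Fintype.card_bool]
    have h3 : 2 ^ (n + n) = 4 ^ n := by
      rw [← two_mul, pow_mul]
      norm_num
    have h4 : T * T * (n * n * (n * n)) = T ^ 2 * n ^ 4 := by ring
    have h5 : T ^ 3 * ((n * n) ^ 3 * (n * n) ^ 3) = T ^ 3 * n ^ 12 := by ring
    rw [h3, h4, h5]
    ring
  rw [← h2]
  calc (badTm K n r T m).card * (Fintype.card K - 1) ^ r
      ≤ (∑ θ : Par n T m r, (if Adm K θ then univ.filter (Pt θ.1 θ.2.1 θ.2.2.2.2)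
        else (∅ : Finset (Ix n → K))).card) * (Fintype.card K - 1) ^ r :=
        Nat.mul_le_mul_right _ card_biUnion_le
    _ = ∑ θ : Par n T m r, (if Adm K θ then univ.filter (Pt θ.1 θ.2.1 θ.2.2.2.2)
        else (∅ : Finset (Ix n → K))).card * (Fintype.card K - 1) ^ r := by rw [sum_mul]
    _ ≤ ∑ _θ : Par n T m r, 2 ^ r * Fintype.card K ^ (2 * n) := by
        apply sum_le_sum
        intro θ _
        split_ifs with h
        · have := card_pt θ.1 θ.2.1 θ.2.2.1 θ.2.2.2.1 θ.2.2.2.2 h.1 h.2.1 h.2.2.1 h.2.2.2.1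
            h.2.2.2.2.1 h.2.2.2.2.2
          exact this
        · simp
    _ = Fintype.card (Par n T m r) * (2 ^ r * Fintype.card K ^ (2 * n)) := by
        rw [sum_const, card_univ, smul_eq_mul]

open Classical in
/-- the exceptional arrays -/
noncomputable def bad2 (K : Type*) [Field K] [Fintype K] (n r : ℕ) : Finset (Ix n → K) :=
  (range (n + 1) ×ˢ range (n + 1)).biUnion fun u => badTm K n r u.1 u.2

theorem card_bad2 (r : ℕ) :
    (bad2 K n r).card * (Fintype.card K - 1) ^ r ≤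
      (n + 1) ^ (2 + 7 * n + 15 * r) * (8 ^ n * 4 ^ r) * Fintype.card K ^ (2 * n) := by
  classical
  calc (bad2 K n r).card * (Fintype.card K - 1) ^ r
      ≤ (∑ u ∈ range (n + 1) ×ˢ range (n + 1), (badTm K n r u.1 u.2).card) *
        (Fintype.card K - 1) ^ r := by
        unfold bad2
        exact Nat.mul_le_mul_right _ card_biUnion_le
    _ = ∑ u ∈ range (n + 1) ×ˢ range (n + 1),
        (badTm K n r u.1 u.2).card * (Fintype.card K - 1) ^ r := by rw [sum_mul]
    _ ≤ ∑ _u ∈ range (n + 1) ×ˢ range (n + 1),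
        (n + 1) ^ (7 * n + 15 * r) * (8 ^ n * 4 ^ r) * Fintype.card K ^ (2 * n) := by
        apply sum_le_sum
        intro u hu
        rw [mem_product, mem_range, mem_range] at hu
        refine card_badTm.trans ?_
        have h1 : 2 ^ u.1 ≤ 2 ^ n := Nat.pow_le_pow_right (by norm_num) (by omega)
        have h2 : (u.1 ^ 2 * n ^ 4) ^ u.2 ≤ (n + 1) ^ (6 * n) := by
          calc (u.1 ^ 2 * n ^ 4) ^ u.2 ≤ ((n + 1) ^ 2 * (n + 1) ^ 4) ^ u.2 := by
                apply Nat.pow_le_pow_left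
                apply Nat.mul_le_mul
                · exact Nat.pow_le_pow_left (by omega) _
                · exact Nat.pow_le_pow_left (by omega) _
            _ = (n + 1) ^ (6 * u.2) := by
                rw [← pow_add, ← pow_mul]
            _ ≤ (n + 1) ^ (6 * n) := Nat.pow_le_pow_right (by omega) (by omega)
        have h3 : u.1 ^ u.1 ≤ (n + 1) ^ n := by
          calc u.1 ^ u.1 ≤ (n + 1) ^ u.1 := Nat.pow_le_pow_left (by omega) _
            _ ≤ (n + 1) ^ n := Nat.pow_le_pow_right (by omega) (by omega)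
        have h4 : (2 * (u.1 ^ 3 * n ^ 12)) ^ r ≤ 2 ^ r * (n + 1) ^ (15 * r) := by
          calc (2 * (u.1 ^ 3 * n ^ 12)) ^ r ≤ (2 * ((n + 1) ^ 3 * (n + 1) ^ 12)) ^ r := by
                apply Nat.pow_le_pow_left
                apply Nat.mul_le_mul_left
                apply Nat.mul_le_mul
                · exact Nat.pow_le_pow_left (by omega) _
                · exact Nat.pow_le_pow_left (by omega) _
            _ = 2 ^ r * (n + 1) ^ (15 * r) := by
                rw [mul_pow, ← pow_add, ← pow_mul]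
        calc 2 ^ u.1 * (u.1 ^ 2 * n ^ 4) ^ u.2 * u.1 ^ u.1 * 4 ^ n *
              (2 * (u.1 ^ 3 * n ^ 12)) ^ r * (2 ^ r * Fintype.card K ^ (2 * n))
            ≤ 2 ^ n * (n + 1) ^ (6 * n) * (n + 1) ^ n * 4 ^ n *
              (2 ^ r * (n + 1) ^ (15 * r)) * (2 ^ r * Fintype.card K ^ (2 * n)) := by
              apply Nat.mul_le_mul_right
              apply Nat.mul_le_mul _ h4
              apply Nat.mul_le_mul_right
              exact Nat.mul_le_mul (Nat.mul_le_mul h1 h2) h3
          _ = (n + 1) ^ (7 * n + 15 * r) * (8 ^ n * 4 ^ r) * Fintype.card K ^ (2 * n) := by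
              have e1 : (8 : ℕ) ^ n = 2 ^ n * 4 ^ n := by
                rw [← mul_pow]
                norm_num
              have e2 : (4 : ℕ) ^ r = 2 ^ r * 2 ^ r := by
                rw [← mul_pow]
                norm_num
              have e3 : (n + 1) ^ (7 * n + 15 * r) =
                  (n + 1) ^ (6 * n) * (n + 1) ^ n * (n + 1) ^ (15 * r) := by
                rw [← pow_add, ← pow_add]
                congr 1
                ring
              rw [e1, e2, e3]
              ring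
    _ = (n + 1) ^ (2 + 7 * n + 15 * r) * (8 ^ n * 4 ^ r) * Fintype.card K ^ (2 * n) := by
        rw [sum_const, card_product, card_range, smul_eq_mul]
        have e3 : (n + 1) ^ (2 + 7 * n + 15 * r) =
            (n + 1) * (n + 1) * (n + 1) ^ (7 * n + 15 * r) := by
          rw [add_assoc, pow_add]
          ring
        rw [e3]
        ring

theorem mem_bad2 {f : Ix n → K} (hT : T ≤ n) (hm : m ≤ n) (θ : Par n T m r) (hθ : Adm K θ)
    (hf : Pt θ.1 θ.2.1 θ.2.2.2.2 f) : f ∈ bad2 K n r := by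
  classical
  unfold bad2
  rw [mem_biUnion]
  refine ⟨(T, m), ?_, ?_⟩
  · rw [mem_product, mem_range, mem_range]
    exact ⟨Nat.lt_succ_of_le hT, Nat.lt_succ_of_le hm⟩
  · unfold badTm
    rw [mem_biUnion]
    refine ⟨θ, mem_univ _, ?_⟩
    rw [if_pos hθ, mem_filter]
    exact ⟨mem_univ _, hf⟩

end Pool.Agent.GGZ
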