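import Mathlib
import Pool.Agent.GGZ.Defs

/-!
# Slopes do not help: the blocks of queries
-/

namespace Pool.Agent.GGZ

open Finset Pool.Agent.GGX Pool.Agent.GGX.Tri

variable {K : Type*} [Field K] {n T : ℕ}

/-- one more coincidence joins two blocks -/
theorem det_cons {m : ℕ} (s : Fin T → Bool) (e : Fin m → Pat n T) (blk : Fin T → Fin T)
    (hdet : Det K s e blk) (i₀ j₀ : Fin T) (z z' : Fin n × Fin n) :
    Det K s (Fin.cons ((i₀, j₀), (z, z')) e : Fin (m + 1) → Pat n T)
      (fun i => if blk i = blk j₀ then blk i₀ else blk i) := by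
  intro γ γ' f f' h h' hw i j hij
  have hold := hdet γ γ' f f' (fun k => by simpa using h k.succ) (fun k => by simpa using h' k.succ)
    (fun k => by simpa using hw k.succ)
  have h0 := h 0
  have h0' := h' 0
  have hw0 := hw 0
  rw [Fin.cons_zero] at h0 h0' hw0
  have hnew : γ i₀ - γ j₀ = γ' i₀ - γ' j₀ := by
    unfold Holds pos at h0 h0'
    unfold wt at hw0
    simp only at h0 h0' hw0
    linear_combination h0 - h0' - hw0
  simp only at hij
  by_cases hi : blk i = blk j₀ <;> by_cases hj : blk j = blk j₀
  · exact hold i j (hi.trans hj.symm)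
  · rw [if_pos hi, if_neg hj] at hij
    have h1 := hold i j₀ hi
    have h2 := hold i₀ j hij
    linear_combination h1 + h2 - hnew
  · rw [if_neg hi, if_pos hj] at hij
    have h1 := hold j j₀ hj
    have h2 := hold i i₀ hij
    linear_combination h2 - h1 + hnew
  · rw [if_neg hi, if_neg hj] at hij
    exact hold i j hij

theorem forest_aux (s : Fin T → Bool) (γ : Fin T → K) (f : Ix n → K) (cls : Fin T → K) :
    ∀ (k m : ℕ) (e : Fin m → Pat n T) (blk : Fin T → Fin T),
      (∀ k, Holds s γ f (e k)) → Det K s e blk → (univ.image blk).card = k →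
      (univ.image blk).card + m ≤ T → (∀ i j, blk i = blk j → cls i = cls j) →
      ∃ (m : ℕ) (e : Fin m → Pat n T) (blk : Fin T → Fin T),
        (∀ k, Holds s γ f (e k)) ∧ Det K s e blk ∧ (univ.image blk).card + m ≤ T ∧
        (∀ i j, blk i = blk j → cls i = cls j) ∧
        (∀ i j z z', cls i = cls j → pos s γ f i z = pos s γ f j z' → blk i = blk j) := by
  intro k
  induction k using Nat.strong_induction_on with
  | _ k ih =>
    intro m e blk he hdet hk hT hcls
    by_cases hfin : ∀ i j z z', cls i = cls j → pos s γ f i z = pos s γ f j z' → blk i = blk j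
    · exact ⟨m, e, blk, he, hdet, hT, hcls, hfin⟩
    push Not at hfin
    obtain ⟨i₀, j₀, z, z', hc, hp, hne⟩ := hfin
    have hlt : (univ.image fun i => if blk i = blk j₀ then blk i₀ else blk i).card <
        (univ.image blk).card := by
      refine card_lt_card ?_
      rw [ssubset_iff_of_subset]
      · refine ⟨blk j₀, mem_image_of_mem _ (mem_univ _), ?_⟩
        rw [mem_image]
        rintro ⟨i, -, hi⟩
        by_cases h : blk i = blk j₀
        · rw [if_pos h] at hi
          exact hne hi
        · rw [if_neg h] at hi
          exact h hi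
      · intro b hb
        rw [mem_image] at hb
        obtain ⟨i, -, rfl⟩ := hb
        split_ifs
        · exact mem_image_of_mem _ (mem_univ _)
        · exact mem_image_of_mem _ (mem_univ _)
    refine ih _ (by rw [← hk]; exact hlt) (m + 1)
      (Fin.cons ((i₀, j₀), (z, z')) e : Fin (m + 1) → Pat n T)
      (fun i => if blk i = blk j₀ then blk i₀ else blk i) ?_ (det_cons s e blk hdet i₀ j₀ z z')
      rfl (by omega) ?_
    · intro k
      refine Fin.cases ?_ (fun k => ?_) k
      · rw [Fin.cons_zero]
        exact hp
      · rw [Fin.cons_succ]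
        exact he k
    · intro i j hij
      by_cases hi : blk i = blk j₀ <;> by_cases hj : blk j = blk j₀
      · exact hcls i j (hi.trans hj.symm)
      · rw [if_pos hi, if_neg hj] at hij
        exact (hcls i j₀ hi).trans (hc.symm.trans (hcls i₀ j hij))
      · rw [if_neg hi, if_pos hj] at hij
        exact (hcls i i₀ hij).trans (hc.trans (hcls j j₀ hj).symm)
      · rw [if_neg hi, if_neg hj] at hij
        exact hcls i j hij

/-- **Blocks.** -/
theorem exists_forest (s : Fin T → Bool) (γ : Fin T → K) (f : Ix n → K) (cls : Fin T → K) :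
    ∃ (m : ℕ) (e : Fin m → Pat n T) (blk : Fin T → Fin T),
      (∀ k, Holds s γ f (e k)) ∧ Det K s e blk ∧ (univ.image blk).card + m ≤ T ∧
      (∀ i j, blk i = blk j → cls i = cls j) ∧
      (∀ i j z z', cls i = cls j → pos s γ f i z = pos s γ f j z' → blk i = blk j) := by
  refine forest_aux s γ f cls _ 0 (fun k => k.elim0) id (fun k => k.elim0) ?_ rfl ?_ ?_
  · intro γ γ' f f' _ _ _ i j hij
    have : i = j := hij
    rw [this, sub_self, sub_self]
  · rw [image_id, card_univ, Fintype.card_fin]
    simp
  · intro i j hij
    have : i = j := hij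
    rw [this]

/-- **Packing and covering.** -/
theorem exists_hit {α ι : Type*} [DecidableEq α] (w : ι → Finset α) (c : ℕ)
    (hc : ∀ i, (w i).card ≤ c) (r : ℕ) (P : ι → Prop) :
    (∃ g : Fin r → ι, (∀ t, P (g t)) ∧ ∀ t t', t ≠ t' → Disjoint (w (g t)) (w (g t'))) ∨
      ∃ H : Finset α, H.card ≤ c * r ∧ ∀ i, P i → ¬ Disjoint (w i) H ∨ w i = ∅ := by
  classical
  induction r generalizing P with
  | zero =>
    left
    exact ⟨fun k => k.elim0, fun k => k.elim0, fun k => k.elim0⟩
  | succ r ih =>
    by_cases hP : ∃ i, P i
    swap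
    · right
      exact ⟨∅, by simp, fun i hi => absurd ⟨i, hi⟩ hP⟩
    obtain ⟨i, hi⟩ := hP
    rcases ih (fun j => P j ∧ Disjoint (w j) (w i)) with ⟨g, hg, hdis⟩ | ⟨H, hH, hhit⟩
    · left
      refine ⟨(Fin.cons i g : Fin (r + 1) → ι), fun t => ?_, fun t t' => ?_⟩
      · refine Fin.cases ?_ (fun k => ?_) t
        · rw [Fin.cons_zero]
          exact hi
        · rw [Fin.cons_succ]
          exact (hg k).1
      · refine Fin.cases ?_ (fun k => ?_) t <;> refine Fin.cases ?_ (fun k' => ?_) t'
        · intro h
          exact absurd rfl h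
        · intro _
          rw [Fin.cons_zero, Fin.cons_succ]
          exact (hg k').2.symm
        · intro _
          rw [Fin.cons_zero, Fin.cons_succ]
          exact (hg k).2
        · intro h
          rw [Fin.cons_succ, Fin.cons_succ]
          exact hdis k k' (fun h' => h (by rw [h']))
    · right
      refine ⟨H ∪ w i, ?_, fun j hj => ?_⟩
      · have h1 := card_union_le H (w i)
        have h2 := hc i
        rw [Nat.mul_succ]
        omega
      · by_cases h : Disjoint (w j) (w i)
        · rcases hhit j ⟨hj, h⟩ with h3 | h3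
          · left
            intro h4
            exact h3 (h4.mono_right subset_union_left)
          · right
            exact h3
        · left
          intro h4
          exact h (h4.mono_right subset_union_right)

end Pool.Agent.GGZ
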