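import Mathlib
import Pool.Agent.GGZ.Defs

/-!
# Slopes do not help: the events are not trivial
-/

namespace Pool.Agent.GGZ

open Finset Pool.Agent.GGX Pool.Agent.GGX.Tri

variable {K : Type*} [Field K] {n T : ℕ}

theorem sm_add (f g : Ix n → K) (z : Fin n × Fin n) : sm (f + g) z = sm f z + sm g z := by
  simp only [sm, Pi.add_apply]
  ring

theorem sm_sub (f g : Ix n → K) (z : Fin n × Fin n) : sm (f - g) z = sm f z - sm g z := by
  simp only [sm, Pi.sub_apply]
  ring

theorem sm_smul (c : K) (f : Ix n → K) (z : Fin n × Fin n) : sm (c • f) z = c * sm f z := by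
  simp only [sm, Pi.smul_apply, smul_eq_mul]
  ring

theorem sm_zero (z : Fin n × Fin n) : sm (0 : Ix n → K) z = 0 := by
  simp [sm]

/-- unit vectors -/
def ua (K : Type*) [Field K] {n : ℕ} (k : Fin n) : Ix n → K :=
  Sum.elim (fun i => if i = k then 1 else 0) fun _ => 0

/-- unit vectors -/
def ub (K : Type*) [Field K] {n : ℕ} (k : Fin n) : Ix n → K :=
  Sum.elim (fun _ => 0) fun i => if i = k then 1 else 0

theorem sm_ua (k : Fin n) (z : Fin n × Fin n) : sm (ua K k) z = if z.1 = k then 1 else 0 := by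
  simp [sm, ua]

theorem sm_ub (k : Fin n) (z : Fin n × Fin n) : sm (ub K k) z = if z.2 = k then 1 else 0 := by
  simp [sm, ub]

/-- a coincidence inside a block is not trivial -/
theorem nonvan_a (h2 : (2 : K) ≠ 0) (s : Fin T → Bool) (γ : Fin T → K) (i j : Fin T)
    (z z' : Fin n × Fin n) (h : z ≠ z' ∨ s i ≠ s j) :
    ∃ f₀ : Ix n → K, pos s γ f₀ i z - pos s γ f₀ j z' ≠ 0 := by
  by_contra hcon
  push Not at hcon
  have h0 := hcon 0
  simp only [pos, sm_zero, mul_zero, zero_add] at h0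
  have hall : ∀ f : Ix n → K, sg K (s i) * sm f z = sg K (s j) * sm f z' := by
    intro f
    have h1 := hcon f
    unfold pos at h1
    linear_combination h1 - h0
  by_cases hz : z = z'
  · have hs : s i ≠ s j := h.resolve_left (fun h' => h' hz)
    have h1 := hall (ua K z.1)
    rw [sm_ua, ← hz, sm_ua, if_pos rfl, mul_one, mul_one] at h1
    cases hsi : s i <;> cases hsj : s j
    · exact hs (hsi.trans hsj.symm)
    · rw [hsi, hsj] at h1
      simp only [sg, Bool.false_eq_true, if_false, if_true] at h1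
      exact h2 (by linear_combination -h1)
    · rw [hsi, hsj] at h1
      simp only [sg, Bool.false_eq_true, if_false, if_true] at h1
      exact h2 (by linear_combination h1)
    · exact hs (hsi.trans hsj.symm)
  · by_cases h1 : z'.1 = z.1
    · have h3 : z'.2 ≠ z.2 := fun h3 => hz (Prod.ext h1.symm h3.symm)
      have h4 := hall (ub K z.2)
      rw [sm_ub, sm_ub, if_pos rfl, if_neg h3, mul_one, mul_zero] at h4
      exact sg_ne_zero _ h4
    · have h4 := hall (ua K z.1)
      rw [sm_ua, sm_ua, if_pos rfl, if_neg h1, mul_one, mul_zero] at h4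
      exact sg_ne_zero _ h4

/-- three different sums are affinely independent -/
theorem exists_sep (z₀ z₁ z₂ : Fin n × Fin n) (h01 : z₀ ≠ z₁) (h02 : z₀ ≠ z₂)
    (h12 : z₁ ≠ z₂) : ∃ Y : Ix n → K, sm Y z₀ - sm Y z₁ = 0 ∧ sm Y z₀ - sm Y z₂ ≠ 0 := by
  by_cases ha : z₀.1 ≠ z₂.1 ∧ z₁.1 ≠ z₂.1
  · refine ⟨ua K z₂.1, ?_, ?_⟩
    · rw [sm_ua, sm_ua, if_neg ha.1, if_neg ha.2, sub_self]
    · rw [sm_ua, sm_ua, if_neg ha.1, if_pos rfl, zero_sub]
      exact neg_ne_zero.mpr one_ne_zero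
  by_cases hb : z₀.2 ≠ z₂.2 ∧ z₁.2 ≠ z₂.2
  · refine ⟨ub K z₂.2, ?_, ?_⟩
    · rw [sm_ub, sm_ub, if_neg hb.1, if_neg hb.2, sub_self]
    · rw [sm_ub, sm_ub, if_neg hb.1, if_pos rfl, zero_sub]
      exact neg_ne_zero.mpr one_ne_zero
  have ha' : z₀.1 = z₂.1 ∨ z₁.1 = z₂.1 := by
    by_contra h
    push Not at h
    exact ha h
  have hb' : z₀.2 = z₂.2 ∨ z₁.2 = z₂.2 := by
    by_contra h
    push Not at h
    exact hb h
  have key : ∀ u w : Fin n × Fin n, u ≠ w → u.1 = z₂.1 → w.2 = z₂.2 → u ≠ z₂ → w ≠ z₂ →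
      sm (ua K z₂.1 + ub K z₂.2) u = 1 ∧ sm (ua K z₂.1 + ub K z₂.2) w = 1 ∧
        sm (ua K z₂.1 + ub K z₂.2) z₂ = 2 := by
    intro u w _ h1 h3 h4 h5
    have h6 : u.2 ≠ z₂.2 := fun h => h4 (Prod.ext h1 h)
    have h7 : w.1 ≠ z₂.1 := fun h => h5 (Prod.ext h h3)
    refine ⟨?_, ?_, ?_⟩
    · rw [sm_add, sm_ua, sm_ub, if_pos h1, if_neg h6, add_zero]
    · rw [sm_add, sm_ua, sm_ub, if_neg h7, if_pos h3, zero_add]
    · rw [sm_add, sm_ua, sm_ub, if_pos rfl, if_pos rfl, one_add_one_eq_two]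
  have h10 : (1 : K) - 2 ≠ 0 := by
    intro h
    exact one_ne_zero (α := K) (by linear_combination -h)
  rcases ha' with ha' | ha' <;> rcases hb' with hb' | hb'
  · exact absurd (Prod.ext ha' hb') h02
  · obtain ⟨e1, e2, e3⟩ := key z₀ z₁ h01 ha' hb' h02 h12
    exact ⟨_, by rw [e1, e2, sub_self], by rw [e1, e3]; exact h10⟩
  · obtain ⟨e1, e2, e3⟩ := key z₁ z₀ h01.symm ha' hb' h12 h02
    exact ⟨_, by rw [e1, e2, sub_self], by rw [e2, e3]; exact h10⟩
  · exact absurd (Prod.ext ha' hb') h12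

theorem sg_cases (b : Bool) : sg K b = 1 ∨ sg K b = -1 := by
  cases b <;> simp [sg]

/-- the difference of two positions on a unit vector -/
theorem coef_cases (s s' : K) (hs : s = 1 ∨ s = -1) (hs' : s' = 1 ∨ s' = -1) (k l p q : Fin n)
    (hkl : k ≠ l) (θ : K) (h1 : s * (if p = k then 1 else 0) - s' * (if q = k then 1 else 0) = θ)
    (h2 : s * (if p = l then 1 else 0) - s' * (if q = l then 1 else 0) = -θ) :
    θ = 0 ∨ θ = 1 ∨ θ = -1 := by
  by_cases hp : p = k
  · have hpl : p ≠ l := fun h => hkl (hp.symm.trans h)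
    by_cases hq : q = k
    · have hql : q ≠ l := fun h => hkl (hq.symm.trans h)
      rw [if_neg hpl, if_neg hql] at h2
      left
      linear_combination h2
    · rw [if_pos hp, if_neg hq] at h1
      right
      rcases hs with hs | hs
      · left
        rw [hs] at h1
        linear_combination -h1
      · right
        rw [hs] at h1
        linear_combination -h1
  · rw [if_neg hp] at h1
    by_cases hq : q = k
    · rw [if_pos hq] at h1
      right
      rcases hs' with hs' | hs'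
      · right
        rw [hs'] at h1
        linear_combination -h1
      · left
        rw [hs'] at h1
        linear_combination -h1
    · rw [if_neg hq] at h1
      left
      linear_combination -h1

/-- if the relation of three hits is trivial, the ratio of the slopes is `± 1` or zero -/
theorem nonvan_b (h2 : (2 : K) ≠ 0) (s : Fin T → Bool) (γ : Fin T → K) (j₀ j₁ j₂ : Fin T)
    (z₀ z₁ z₂ z₀' z₁' z₂' : Fin n × Fin n) (h01 : z₀ ≠ z₁) (h02 : z₀ ≠ z₂) (h12 : z₁ ≠ z₂)
    (hall : ∀ f : Ix n → K, (pos s γ f j₀ z₀' - pos s γ f j₁ z₁') * (sm f z₀ - sm f z₂) -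
      (pos s γ f j₀ z₀' - pos s γ f j₂ z₂') * (sm f z₀ - sm f z₁) = 0) :
    ∃ θ : K, (θ = 0 ∨ θ = 1 ∨ θ = -1) ∧
      ∀ f : Ix n → K, pos s γ f j₀ z₀' - pos s γ f j₁ z₁' = θ * (sm f z₀ - sm f z₁) := by
  obtain ⟨Y, hY1, hY2⟩ := exists_sep (K := K) z₀ z₁ z₂ h01 h02 h12
  -- the first factor vanishes with `α`
  have hmain : ∀ X : Ix n → K, sm X z₀ - sm X z₁ = 0 →
      sm X z₀ - sm X z₂ ≠ 0 → pos s γ X j₀ z₀' - pos s γ X j₁ z₁' = 0 := by
    intro X h1 h3
    have h4 := hall X
    rw [h1, mul_zero, sub_zero] at h4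
    exact (mul_eq_zero.mp h4).resolve_right h3
  have hpos : ∀ (f g : Ix n → K) (i : Fin T) (z : Fin n × Fin n),
      pos s γ (f + g) i z + pos s γ (f - g) i z = 2 * pos s γ f i z := by
    intro f g i z
    unfold pos
    rw [sm_add, sm_sub]
    ring
  have hvan : ∀ X : Ix n → K, sm X z₀ - sm X z₁ = 0 →
      pos s γ X j₀ z₀' - pos s γ X j₁ z₁' = 0 := by
    intro X h1
    by_cases h3 : sm X z₀ - sm X z₂ = 0
    · have h4 := hmain (X + Y) (by rw [sm_add, sm_add]; linear_combination h1 + hY1)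
        (by
          rw [sm_add, sm_add]
          intro h
          exact hY2 (by linear_combination h - h3))
      have h5 := hmain (X - Y) (by rw [sm_sub, sm_sub]; linear_combination h1 - hY1)
        (by
          rw [sm_sub, sm_sub]
          intro h
          exact hY2 (by linear_combination h3 - h))
      have h6 := hpos X Y j₀ z₀'
      have h7 := hpos X Y j₁ z₁'
      have h8 : 2 * (pos s γ X j₀ z₀' - pos s γ X j₁ z₁') = 0 := by
        linear_combination h4 + h5 - h6 + h7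
      exact (mul_eq_zero.mp h8).resolve_left h2
    · exact hmain X h1 h3
  have h00 := hvan 0 (by rw [sm_zero, sm_zero, sub_self])
  simp only [pos, sm_zero, mul_zero, zero_add] at h00
  -- the linear part
  have hlin : ∀ W : Ix n → K, sm W z₀ - sm W z₁ = 1 → ∀ f : Ix n → K,
      pos s γ f j₀ z₀' - pos s γ f j₁ z₁' =
        (sg K (s j₀) * sm W z₀' - sg K (s j₁) * sm W z₁') * (sm f z₀ - sm f z₁) := by
    intro W hW f
    have h1 := hvan (f - (sm f z₀ - sm f z₁) • W) (by
      rw [sm_sub, sm_sub, sm_smul, sm_smul]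
      linear_combination -(sm f z₀ - sm f z₁) * hW)
    unfold pos at h1 ⊢
    rw [sm_sub, sm_sub, sm_smul, sm_smul] at h1
    linear_combination h1
  by_cases hk : z₀.1 = z₁.1
  · have hl : z₀.2 ≠ z₁.2 := fun h => h01 (Prod.ext hk h)
    have h3 := hlin (ub K z₀.2) (by
      rw [sm_ub, sm_ub, if_pos rfl, if_neg (fun h => hl h.symm), sub_zero])
    rw [sm_ub, sm_ub] at h3
    refine ⟨_, ?_, h3⟩
    refine coef_cases _ _ (sg_cases _) (sg_cases _) z₀.2 z₁.2 z₀'.2 z₁'.2 hl _ rfl ?_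
    have h4 := h3 (ub K z₁.2)
    unfold pos at h4
    rw [sm_ub, sm_ub, sm_ub, sm_ub, if_neg hl, if_pos rfl] at h4
    linear_combination h4 - h00
  · have h3 := hlin (ua K z₀.1) (by
      rw [sm_ua, sm_ua, if_pos rfl, if_neg (fun h => hk h.symm), sub_zero])
    rw [sm_ua, sm_ua] at h3
    refine ⟨_, ?_, h3⟩
    refine coef_cases _ _ (sg_cases _) (sg_cases _) z₀.1 z₁.1 z₀'.1 z₁'.1 hk _ rfl ?_
    have h4 := h3 (ua K z₁.1)
    unfold pos at h4
    rw [sm_ua, sm_ua, sm_ua, sm_ua, if_neg hk, if_pos rfl] at h4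
    linear_combination h4 - h00

end Pool.Agent.GGZ
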