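import Mathlib
import Pool.Agent.GGZ.Bad
import Pool.Agent.GGZ.Nonvan
import Pool.Agent.GGZ.Forest

/-!
# Slopes do not help: the selection of the sums
-/

namespace Pool.Agent.GGZ

open Finset Pool.Agent.GGX Pool.Agent.GGX.Tri

section comb

theorem pair_sum {β : Type*} (B : Finset β) (size : β → ℕ) (lt : β → β → Prop)
    [DecidableRel lt] (hlt : ∀ b b', lt b b' → size b ≤ size b')
    (hasym : ∀ b b', lt b b' → ¬ lt b' b) :
    ∑ b ∈ B, size b * (2 * #{b' ∈ B | lt b b'}) ≤ (∑ b ∈ B, size b) * #B := by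
  have h1 : ∀ b ∈ B, size b * (2 * #{b' ∈ B | lt b b'}) ≤
      ∑ b' ∈ B, ((if lt b b' then size b else 0) + (if lt b b' then size b' else 0)) := by
    intro b _
    have h2 : size b * (2 * #{b' ∈ B | lt b b'}) = ∑ b' ∈ B, if lt b b' then 2 * size b else 0 := by
      rw [← sum_filter, sum_const, smul_eq_mul]
      ring
    rw [h2]
    refine sum_le_sum (fun b' _ => ?_)
    split_ifs with h
    · have := hlt b b' h
      omega
    · omega
  calc ∑ b ∈ B, size b * (2 * #{b' ∈ B | lt b b'})
      ≤ ∑ b ∈ B, ∑ b' ∈ B,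
        ((if lt b b' then size b else 0) + (if lt b b' then size b' else 0)) := sum_le_sum h1
    _ = (∑ b ∈ B, ∑ b' ∈ B, if lt b b' then size b else 0) +
        ∑ b ∈ B, ∑ b' ∈ B, (if lt b b' then size b' else 0) := by
        rw [← sum_add_distrib]
        exact sum_congr rfl fun b _ => sum_add_distrib
    _ = (∑ b ∈ B, ∑ b' ∈ B, if lt b b' then size b else 0) +
        ∑ b ∈ B, ∑ b' ∈ B, (if lt b' b then size b else 0) := by
        rw [sum_comm (f := fun b b' => if lt b b' then size b' else 0)]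
    _ = ∑ b ∈ B, ∑ b' ∈ B,
        ((if lt b b' then size b else 0) + (if lt b' b then size b else 0)) := by
        rw [← sum_add_distrib]
        exact sum_congr rfl fun b _ => sum_add_distrib.symm
    _ ≤ ∑ b ∈ B, ∑ _b' ∈ B, size b := by
        refine sum_le_sum (fun b _ => sum_le_sum (fun b' _ => ?_))
        by_cases h : lt b b'
        · rw [if_pos h, if_neg (hasym b b' h)]
          omega
        · rw [if_neg h]
          split_ifs <;> omega
    _ = (∑ b ∈ B, size b) * #B := by
        simp only [sum_const, smul_eq_mul]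
        rw [sum_mul]
        exact sum_congr rfl fun b _ => mul_comm _ _

/-- few sums use a line outside `W` -/
theorem card_lines {n : ℕ} (W : Finset (Ix n)) :
    #{z : Fin n × Fin n | ¬ ix z ⊆ W} ≤ n * #(Wᶜ) := by
  have h1 : ({z : Fin n × Fin n | ¬ ix z ⊆ W} : Finset (Fin n × Fin n)) ⊆
      (Wᶜ).biUnion fun x => univ.filter fun z => x ∈ ix z := by
    intro z hz
    rw [mem_filter] at hz
    obtain ⟨x, hx, hxW⟩ := not_subset.mp hz.2
    rw [mem_biUnion]
    exact ⟨x, mem_compl.mpr hxW, mem_filter.mpr ⟨mem_univ _, hx⟩⟩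
  refine (card_le_card h1).trans (card_biUnion_le.trans ?_)
  have h2 : ∀ x ∈ Wᶜ, #((univ : Finset (Fin n × Fin n)).filter fun z => x ∈ ix z) ≤ n := by
    intro x _
    have h3 : Fintype.card (Fin n) = n := Fintype.card_fin n
    conv_rhs => rw [← h3, ← card_univ]
    rcases x with k | k
    · refine card_le_card_of_injOn (fun z => z.2) (fun _ _ => mem_univ _) ?_
      intro z hz z' hz' h
      simp only [ix, coe_filter, mem_univ, true_and, mem_insert, mem_singleton, Sum.inl.injEq,
        reduceCtorEq, or_false, Set.mem_ofPred_eq] at hz hz'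
      exact Prod.ext (hz.symm.trans hz') h
    · refine card_le_card_of_injOn (fun z => z.1) (fun _ _ => mem_univ _) ?_
      intro z hz z' hz' h
      simp only [ix, coe_filter, mem_univ, true_and, mem_insert, mem_singleton, Sum.inr.injEq,
        reduceCtorEq, false_or, Set.mem_ofPred_eq] at hz hz'
      exact Prod.ext h (hz.symm.trans hz')
  calc _ ≤ ∑ _x ∈ Wᶜ, n := sum_le_sum h2
    _ = n * #(Wᶜ) := by
      rw [sum_const, smul_eq_mul, mul_comm]

end comb

section root

variable {K : Type*} [Field K]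

/-- a square root which depends on the square only -/
noncomputable def root (y : K) : K := by
  classical
  exact if h : ∃ x, x ^ 2 = y then h.choose else 0

theorem root_sq (x : K) : root (x ^ 2) ^ 2 = x ^ 2 := by
  classical
  unfold root
  have h : ∃ y : K, y ^ 2 = x ^ 2 := ⟨x, rfl⟩
  rw [dif_pos h]
  exact h.choose_spec

end root

section core

variable {K : Type*} [Field K] [Fintype K] [DecidableEq K] {n T r : ℕ}

open Classical in
/-- The queries with slopes which are not zero, in normal form: the query `i` is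
`rt i * (± z + γ i)`. -/
theorem core_sel (h2 : (2 : K) ≠ 0) (f : Ix n → K) (hf : f ∉ bad2 K n r)
    (hinj : Function.Injective (sm f)) (hT : T ≤ n) (s : Fin T → Bool) (γ rt : Fin T → K)
    (hrt : ∀ i, rt i ≠ 0) (hdist : ∀ i j, rt i = rt j → s i = s j → γ i = γ j → i = j)
    (hcls : ∀ i j, rt i ^ 2 = rt j ^ 2 → rt i = rt j) :
    ∃ X : Finset (Fin n × Fin n), n ^ 2 ≤ #X + n * (T + 12 * r) ∧
      ∀ z ∈ X, ∀ z' ∈ X, ∀ i j, rt i * pos s γ f i z = rt j * pos s γ f j z' →
        i = j ∧ z = z' := by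
  -- the blocks
  obtain ⟨m, e, blk, he, hdet, hcard, hbc, hblk⟩ := exists_forest s γ f rt
  have hmT : m ≤ T := by omega
  -- the free entries
  obtain ⟨R, hR1, hR2⟩ := exists_coord (LinearMap.ker (wmap K s e))
  have hRc : #(Rᶜ) ≤ m := by
    have h3 := LinearMap.finrank_range_add_finrank_ker (wmap K s e)
    have h4 : Module.finrank K (LinearMap.range (wmap K s e)) ≤ m := by
      have h5 := Submodule.finrank_le (LinearMap.range (wmap K s e))
      rw [Module.finrank_fintype_fun_eq_card, Fintype.card_fin] at h5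
      exact h5
    rw [Module.finrank_fintype_fun_eq_card, ← hR2] at h3
    rw [card_compl]
    omega
  -- the active events
  let A : Ev n T → Prop := fun v => (blk (v.2.1 0) = blk (v.2.1 1) ∧
    blk (v.2.1 0) = blk (v.2.1 2)) ∧ supp v ⊆ R ∧ val s γ v f = 0 ∧
    ∃ f₀ : Ix n → K, val s γ v f₀ ≠ 0
  obtain ⟨g, hg, hgd⟩ | ⟨H, hH, hhit⟩ := exists_hit (supp (n := n) (T := T)) 12 card_supp_le r A
  · exfalso
    apply hf
    refine mem_bad2 (T := T) (m := m) hT (by omega) (s, e, blk, R, g) ?_ ?_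
    · exact ⟨hdet, fun t => (hg t).1, hgd, fun t => (hg t).2.1,
        fun f' h1 h3 => hR1 f' (LinearMap.mem_ker.mpr (funext h1)) h3, hR2⟩
    · exact ⟨γ, he, fun t => (hg t).2.2⟩
  let W : Finset (Ix n) := R \ H
  have hWc : #(Wᶜ) ≤ m + 12 * r := by
    have h3 : Wᶜ ⊆ Rᶜ ∪ H := by
      intro x hx
      rw [mem_compl] at hx
      rw [mem_union, mem_compl]
      by_contra h
      push Not at h
      exact hx (mem_sdiff.mpr h)
    have h4 := card_le_card h3
    have h5 := card_union_le (Rᶜ) H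
    omega
  -- no active event in `W`
  have hno : ∀ v : Ev n T, (blk (v.2.1 0) = blk (v.2.1 1) ∧ blk (v.2.1 0) = blk (v.2.1 2)) →
      supp v ⊆ W → val s γ v f = 0 → (∃ f₀ : Ix n → K, val s γ v f₀ ≠ 0) → False := by
    intro v h1 h3 h4 h5
    have h6 : Disjoint (supp v) H := disjoint_left.mpr fun x hx hxH =>
      (mem_sdiff.mp (h3 hx)).2 hxH
    rcases hhit v ⟨h1, h3.trans sdiff_subset, h4, h5⟩ with h7 | h7
    · exact h7 h6
    · have h8 : Sum.inl (v.2.2.1 0).1 ∈ supp v := ix_subset_left v 0 (by simp [ix])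
      rw [h7] at h8
      exact absurd h8 (notMem_empty _)
  have hsupp : ∀ v : Ev n T, (∀ k, ix (v.2.2.1 k) ⊆ W) → (∀ k, ix (v.2.2.2 k) ⊆ W) →
      supp v ⊆ W := by
    intro v h1 h3
    unfold supp
    rw [biUnion_subset]
    intro k _
    exact union_subset (h1 k) (h3 k)
  -- inside a class
  have hA : ∀ i j z z', ix z ⊆ W → ix z' ⊆ W → rt i = rt j → pos s γ f i z = pos s γ f j z' →
      i = j ∧ z = z' := by
    intro i j z z' hz hz' hc hp
    by_contra hne
    have hb := hblk i j z z' hc hp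
    refine hno (false, ![i, j, i], fun _ => z, ![z, z', z]) ⟨?_, ?_⟩ (hsupp _ ?_ ?_) ?_ ?_
    · exact hb
    · rfl
    · exact fun _ => hz
    · intro k
      fin_cases k
      · exact hz
      · exact hz'
      · exact hz
    · change pos s γ f i z - pos s γ f j z' = 0
      rw [hp, sub_self]
    · change ∃ f₀ : Ix n → K, pos s γ f₀ i z - pos s γ f₀ j z' ≠ 0
      refine nonvan_a h2 s γ i j z z' ?_
      by_contra hcon
      push Not at hcon
      apply hne
      refine ⟨hdist i j hc hcon.2 ?_, hcon.1⟩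
      unfold pos at hp
      rw [hcon.1, hcon.2] at hp
      exact add_left_cancel hp
  -- the hits of a block
  let Hit : Fin T → Fin T → Finset (Fin n × Fin n) := fun i b =>
    univ.filter fun z => ix z ⊆ W ∧ ∃ j z', blk j = b ∧ rt j ≠ rt i ∧ ix z' ⊆ W ∧
      rt i * pos s γ f i z = rt j * pos s γ f j z'
  have hHit : ∀ i b, #(Hit i b) ≤ 2 := by
    intro i b
    by_contra hcon
    push Not at hcon
    rw [Finset.two_lt_card] at hcon
    obtain ⟨z₀, h0, z₁, h1, z₂, h3, h01, h02, h12⟩ := hcon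
    simp only [Hit, mem_filter, mem_univ, true_and] at h0 h1 h3
    obtain ⟨hz₀, j₀, z₀', hb₀, hc₀, hz₀', hp₀⟩ := h0
    obtain ⟨hz₁, j₁, z₁', hb₁, hc₁, hz₁', hp₁⟩ := h1
    obtain ⟨hz₂, j₂, z₂', hb₂, hc₂, hz₂', hp₂⟩ := h3
    have hr1 : rt j₀ = rt j₁ := hbc _ _ (hb₀.trans hb₁.symm)
    have hr2 : rt j₀ = rt j₂ := hbc _ _ (hb₀.trans hb₂.symm)
    rw [← hr1] at hp₁
    rw [← hr2] at hp₂
    have hd1 : pos s γ f j₀ z₀' - pos s γ f j₁ z₁' =
        (rt i * sg K (s i) / rt j₀) * (sm f z₀ - sm f z₁) := by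
      have h4 := hrt j₀
      have h5 : rt j₀ * (pos s γ f j₀ z₀' - pos s γ f j₁ z₁') =
          rt i * sg K (s i) * (sm f z₀ - sm f z₁) := by
        have e1 : pos s γ f i z₀ = sg K (s i) * sm f z₀ + γ i := rfl
        have e2 : pos s γ f i z₁ = sg K (s i) * sm f z₁ + γ i := rfl
        rw [e1] at hp₀
        rw [e2] at hp₁
        linear_combination hp₁ - hp₀
      field_simp
      linear_combination h5
    have hd2 : pos s γ f j₀ z₀' - pos s γ f j₂ z₂' =
        (rt i * sg K (s i) / rt j₀) * (sm f z₀ - sm f z₂) := by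
      have h4 := hrt j₀
      have h5 : rt j₀ * (pos s γ f j₀ z₀' - pos s γ f j₂ z₂') =
          rt i * sg K (s i) * (sm f z₀ - sm f z₂) := by
        have e1 : pos s γ f i z₀ = sg K (s i) * sm f z₀ + γ i := rfl
        have e2 : pos s γ f i z₂ = sg K (s i) * sm f z₂ + γ i := rfl
        rw [e1] at hp₀
        rw [e2] at hp₂
        linear_combination hp₂ - hp₀
      field_simp
      linear_combination h5
    refine hno (true, ![j₀, j₁, j₂], ![z₀, z₁, z₂], ![z₀', z₁', z₂']) ⟨?_, ?_⟩
      (hsupp _ ?_ ?_) ?_ ?_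
    · exact hb₀.trans hb₁.symm
    · exact hb₀.trans hb₂.symm
    · intro k
      fin_cases k
      · exact hz₀
      · exact hz₁
      · exact hz₂
    · intro k
      fin_cases k
      · exact hz₀'
      · exact hz₁'
      · exact hz₂'
    · change (pos s γ f j₀ z₀' - pos s γ f j₁ z₁') * (sm f z₀ - sm f z₂) -
        (pos s γ f j₀ z₀' - pos s γ f j₂ z₂') * (sm f z₀ - sm f z₁) = 0
      rw [hd1, hd2]
      ring
    · by_contra hall
      push Not at hall
      obtain ⟨θ, hθ, hid⟩ := nonvan_b h2 s γ j₀ j₁ j₂ z₀ z₁ z₂ z₀' z₁' z₂' h01 h02 h12 hall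
      have h4 := hid f
      rw [hd1] at h4
      have h5 : sm f z₀ - sm f z₁ ≠ 0 := sub_ne_zero.mpr fun h => h01 (hinj h)
      have h6 := mul_right_cancel₀ h5 h4
      have h7 : rt i * sg K (s i) = θ * rt j₀ := by
        rw [← h6]
        field_simp [hrt j₀]
      have h8 := sg_mul_self (K := K) (s i)
      rcases hθ with hθ | hθ | hθ
      · rw [hθ, zero_mul] at h7
        exact (mul_ne_zero (hrt i) (sg_ne_zero _)) h7
      · apply hc₀
        refine hcls _ _ ?_
        rw [hθ, one_mul] at h7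
        rw [← h7]
        linear_combination (rt i) ^ 2 * h8
      · apply hc₀
        refine hcls _ _ ?_
        have h9 : rt j₀ = -(rt i * sg K (s i)) := by
          rw [hθ] at h7
          linear_combination h7
        rw [h9]
        linear_combination (rt i) ^ 2 * h8
  -- the order of the blocks
  let size : Fin T → ℕ := fun b => #{i | blk i = b}
  let lt : Fin T → Fin T → Prop := fun b b' => size b < size b' ∨ (size b = size b' ∧ b < b')
  have hlt : ∀ b b', lt b b' → size b ≤ size b' := by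
    intro b b' h
    rcases h with h | h
    · exact h.le
    · exact h.1.le
  have hasym : ∀ b b', lt b b' → ¬ lt b' b := by
    intro b b' h h'
    rcases h with h | h <;> rcases h' with h' | h'
    · omega
    · omega
    · omega
    · exact absurd h.2 (not_lt.mpr h'.2.le)
  have htot : ∀ b b', b ≠ b' → lt b b' ∨ lt b' b := by
    intro b b' h
    rcases lt_trichotomy (size b) (size b') with h1 | h1 | h1
    · exact Or.inl (Or.inl h1)
    · rcases lt_or_gt_of_ne h with h3 | h3
      · exact Or.inl (Or.inr ⟨h1, h3⟩)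
      · exact Or.inr (Or.inr ⟨h1.symm, h3⟩)
    · exact Or.inr (Or.inl h1)
  let B : Finset (Fin T) := univ.image blk
  let Kill : Finset (Fin n × Fin n) := (univ : Finset (Fin T)).biUnion fun i =>
    (B.filter fun b => lt (blk i) b).biUnion fun b => Hit i b
  have hKill : #Kill ≤ n * #B := by
    have h1 : #Kill ≤ ∑ i : Fin T, 2 * #{b ∈ B | lt (blk i) b} := by
      refine card_biUnion_le.trans (sum_le_sum fun i _ => card_biUnion_le.trans ?_)
      calc _ ≤ ∑ _b ∈ B.filter (fun b => lt (blk i) b), 2 := sum_le_sum fun b _ => hHit i b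
        _ = 2 * #{b ∈ B | lt (blk i) b} := by rw [sum_const, smul_eq_mul, mul_comm]
    have h3 : ∑ i : Fin T, 2 * #{b ∈ B | lt (blk i) b} =
        ∑ b ∈ B, size b * (2 * #{b' ∈ B | lt b b'}) := by
      have := Finset.sum_comp (s := (univ : Finset (Fin T)))
        (fun b => 2 * #{b' ∈ B | lt b b'}) blk
      rw [this]
      exact sum_congr rfl fun b _ => smul_eq_mul _ _
    have h4 : ∑ b ∈ B, size b = T := by
      have := card_eq_sum_card_image blk (univ : Finset (Fin T))
      rw [card_univ, Fintype.card_fin] at this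
      exact this.symm
    calc #Kill ≤ (∑ b ∈ B, size b) * #B := h1.trans (h3 ▸ pair_sum B size lt hlt hasym)
      _ = T * #B := by rw [h4]
      _ ≤ n * #B := Nat.mul_le_mul_right _ hT
  refine ⟨univ.filter fun z => ix z ⊆ W ∧ z ∉ Kill, ?_, ?_⟩
  · have h1 : (univ : Finset (Fin n × Fin n)) ⊆
        ((univ.filter fun z => ix z ⊆ W ∧ z ∉ Kill) ∪ univ.filter fun z => ¬ ix z ⊆ W) ∪ Kill := by
      intro z _
      rw [mem_union, mem_union, mem_filter, mem_filter]
      by_cases h3 : z ∈ Kill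
      · exact Or.inr h3
      · by_cases h4 : ix z ⊆ W
        · exact Or.inl (Or.inl ⟨mem_univ _, h4, h3⟩)
        · exact Or.inl (Or.inr ⟨mem_univ _, h4⟩)
    have h3 := card_le_card h1
    have h4 := card_union_le ((univ.filter fun z => ix z ⊆ W ∧ z ∉ Kill) ∪
      univ.filter fun z => ¬ ix z ⊆ W) Kill
    have h5 := card_union_le (univ.filter fun z => ix z ⊆ W ∧ z ∉ Kill)
      (univ.filter fun z => ¬ ix z ⊆ W)
    have h6 := card_lines W
    have h7 : (univ : Finset (Fin n × Fin n)).card = n ^ 2 := by simp [sq]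
    rw [h7] at h3
    have h8 : n * #(Wᶜ) ≤ n * (m + 12 * r) := Nat.mul_le_mul_left _ hWc
    have h9 : n * (m + 12 * r) + n * #B ≤ n * (T + 12 * r) := by
      rw [← Nat.mul_add]
      exact Nat.mul_le_mul_left _ (by
        have : #B + m ≤ T := hcard
        omega)
    omega
  · intro z hz z' hz' i j hp
    rw [mem_filter] at hz hz'
    obtain ⟨-, hzW, hzK⟩ := hz
    obtain ⟨-, hzW', hzK'⟩ := hz'
    by_cases hc : rt i = rt j
    · rw [hc] at hp
      exact hA i j z z' hzW hzW' hc (mul_left_cancel₀ (hrt j) hp)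
    · exfalso
      have hb : blk i ≠ blk j := fun h => hc (hbc i j h)
      rcases htot _ _ hb with h | h
      · apply hzK
        simp only [Kill, Hit, mem_biUnion, mem_filter, mem_univ, true_and]
        exact ⟨i, blk j, ⟨mem_image_of_mem _ (mem_univ _), h⟩, hzW, j, z', rfl,
          fun h' => hc h'.symm, hzW', hp⟩
      · apply hzK'
        simp only [Kill, Hit, mem_biUnion, mem_filter, mem_univ, true_and]
        exact ⟨j, blk i, ⟨mem_image_of_mem _ (mem_univ _), h⟩, hzW', i, z, rfl, hc, hzW, hp.symm⟩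

open Classical in
/-- **Selection.** Most pairs have pairwise disjoint positions. -/
theorem select_all (h2 : (2 : K) ≠ 0) (f : Ix n → K) (hf : f ∉ bad2 K n r)
    (hinj : Function.Injective (sm f)) (Q : Finset (K × K)) (hQ : Q.card ≤ n) :
    ∃ X : Finset (Fin n × Fin n), n ^ 2 ≤ X.card + n * (Q.card + 12 * r) ∧
      (∀ x ∈ X, ¬ Self Q (sm f x)) ∧
      (∀ x ∈ X, ∀ y ∈ X, x ≠ y → ¬ Conf Q (sm f x) (sm f y)) := by
  let Q₁ : Finset (K × K) := Q.filter fun q => q.1 ≠ 0
  let Q₀ : Finset (K × K) := Q.filter fun q => q.1 = 0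
  have hQ01 : Q₁.card + Q₀.card = Q.card := by
    have h1 := card_filter_add_card_filter_not (s := Q) (fun q => q.1 = 0)
    have h3 : #Q₀ + #Q₁ = #Q := h1
    omega
  let D : Fin Q₁.card → K × K := fun t => (Q₁.equivFin.symm t : K × K)
  have hDmem : ∀ t, D t ∈ Q₁ := fun t => (Q₁.equivFin.symm t).2
  have hDne : ∀ t, (D t).1 ≠ 0 := fun t => (mem_filter.mp (hDmem t)).2
  have hDinj : ∀ i j, D i = D j → i = j := by
    intro i j h
    have h1 : Q₁.equivFin.symm i = Q₁.equivFin.symm j := Subtype.ext h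
    exact Q₁.equivFin.symm.injective h1
  have hDsurj : ∀ q ∈ Q, q.1 ≠ 0 → ∃ t, D t = q := by
    intro q hq hq0
    refine ⟨Q₁.equivFin ⟨q, mem_filter.mpr ⟨hq, hq0⟩⟩, ?_⟩
    simp [D]
  let rt : Fin Q₁.card → K := fun t => root ((D t).1 ^ 2)
  have hrt2 : ∀ t, rt t ^ 2 = (D t).1 ^ 2 := fun t => root_sq _
  have hrt : ∀ t, rt t ≠ 0 := by
    intro t h
    have h1 := hrt2 t
    rw [h, zero_pow two_ne_zero] at h1
    exact hDne t (pow_eq_zero_iff two_ne_zero |>.mp h1.symm)
  let s : Fin Q₁.card → Bool := fun t => decide ((D t).1 = rt t)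
  have hsg : ∀ t, (D t).1 = rt t * sg K (s t) := by
    intro t
    by_cases h : (D t).1 = rt t
    · have : s t = true := decide_eq_true h
      rw [this, sg, if_pos rfl, mul_one]
      exact h
    · have : s t = false := decide_eq_false h
      rw [this, sg, if_neg (by simp)]
      have h1 : ((D t).1 - rt t) * ((D t).1 + rt t) = 0 := by
        linear_combination -(hrt2 t)
      have h3 := (mul_eq_zero.mp h1).resolve_left (sub_ne_zero.mpr h)
      linear_combination h3
  let γ : Fin Q₁.card → K := fun t => (D t).2 / rt t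
  have hγ : ∀ t, (D t).2 = rt t * γ t := by
    intro t
    simp only [γ]
    field_simp [hrt t]
  have hpos : ∀ t z, (D t).1 * sm f z + (D t).2 = rt t * pos s γ f t z := by
    intro t z
    rw [hsg t, hγ t]
    unfold pos
    ring
  obtain ⟨X, hX, hXX⟩ := core_sel h2 f hf hinj (by omega : Q₁.card ≤ n) s γ rt hrt
    (by
      intro i j h1 h3 h4
      apply hDinj
      refine Prod.ext ?_ ?_
      · rw [hsg i, hsg j, h1, h3]
      · rw [hγ i, hγ j, h1, h4])
    (by
      intro i j h
      rw [hrt2, hrt2] at h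
      simp only [rt]
      rw [h])
  -- the hits of constants
  let Kc : Finset (Fin n × Fin n) := (univ : Finset (Fin Q₁.card × Q₀)).biUnion fun u =>
    univ.filter fun z => (D u.1).1 * sm f z + (D u.1).2 = (u.2 : K × K).2
  have hKc : #Kc ≤ n * #Q₀ := by
    have h1 : ∀ u ∈ (univ : Finset (Fin Q₁.card × Q₀)),
        #((univ : Finset (Fin n × Fin n)).filter
          fun z => (D u.1).1 * sm f z + (D u.1).2 = (u.2 : K × K).2) ≤ 1 := by
      intro u _
      rw [card_le_one]
      intro z hz z' hz'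
      rw [mem_filter] at hz hz'
      apply hinj
      have h3 : (D u.1).1 * sm f z = (D u.1).1 * sm f z' := by
        linear_combination hz.2 - hz'.2
      exact mul_left_cancel₀ (hDne u.1) h3
    calc #Kc ≤ ∑ _u : Fin Q₁.card × Q₀, 1 := card_biUnion_le.trans (sum_le_sum h1)
      _ = #Q₁ * #Q₀ := by
        rw [sum_const, card_univ, Fintype.card_prod, Fintype.card_fin, Fintype.card_coe,
          smul_eq_mul, mul_one]
      _ ≤ n * #Q₀ := Nat.mul_le_mul_right _ (by omega)
  refine ⟨X \ Kc, ?_, ?_, ?_⟩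
  · have h1 := le_card_sdiff Kc X
    have h3 : n * (#Q₁ + 12 * r) + n * #Q₀ = n * (#Q + 12 * r) := by
      rw [← hQ01]
      ring
    omega
  · rintro x hx ⟨q, hq, q', hq', hne, he⟩
    rw [mem_sdiff] at hx
    have hc : ∀ q ∈ Q, ∀ q' ∈ Q, q.1 ≠ q'.1 → q'.1 = 0 →
        q.1 * sm f x + q.2 = q'.1 * sm f x + q'.2 → False := by
      intro q hq q' hq' hne h0 he
      have h1 : q.1 ≠ 0 := fun h => hne (h.trans h0.symm)
      obtain ⟨t, rfl⟩ := hDsurj q hq h1
      apply hx.2
      simp only [Kc, mem_biUnion, mem_filter, mem_univ, true_and]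
      refine ⟨(t, ⟨q', mem_filter.mpr ⟨hq', h0⟩⟩), ?_⟩
      have h5 : q'.1 * sm f x + q'.2 = q'.2 := by rw [h0, zero_mul, zero_add]
      exact he.trans h5
    by_cases h0 : q'.1 = 0
    · exact hc q hq q' hq' hne h0 he
    by_cases h0' : q.1 = 0
    · exact hc q' hq' q hq hne.symm h0' he.symm
    obtain ⟨t, rfl⟩ := hDsurj q hq h0'
    obtain ⟨t', rfl⟩ := hDsurj q' hq' h0
    rw [hpos, hpos] at he
    obtain ⟨h1, -⟩ := hXX x hx.1 x hx.1 t t' he
    exact hne (by rw [h1])
  · rintro x hx y hy hne ⟨q, hq, q', hq', h0, h0', he⟩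
    rw [mem_sdiff] at hx hy
    obtain ⟨t, rfl⟩ := hDsurj q hq h0
    obtain ⟨t', rfl⟩ := hDsurj q' hq' h0'
    rw [hpos, hpos] at he
    exact hne (hXX x hx.1 y hy.1 t t' he).2

end core

end Pool.Agent.GGZ
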