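import Mathlib
import Pool.Agent.GGZ.Sel2
import Pool.Agent.GGZ.Arith4
import Pool.Agent.GGY.Fin2

/-!
# The exact trade-off: assembly
-/

namespace Pool.Agent.GGZ

open Finset Pool.Agent.GGX Pool.Agent.GGX.Tri Pool.Agent.GGY

open Classical in
/-- the exceptional arrays -/
noncomputable def Bad3 (p n r : ℕ) [Fact p.Prime] :
    Finset ((Fin n → ZMod p) × (Fin n → ZMod p)) :=
  (bad2 (ZMod p) n r ∪ coll (ZMod p) n).image (fun f => (f ∘ Sum.inl, f ∘ Sum.inr))

theorem card_Bad3 (p n r : ℕ) [Fact p.Prime] (hn : 4 ≤ n) (h6 : n ^ 6 ≤ p)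
    (h : 4 * n * ((n + 1) ^ (2 + 7 * n + 15 * r) * (8 ^ n * 4 ^ r)) ≤ (p - 1) ^ r) :
    n * (Bad3 p n r).card ≤ p ^ (2 * n) := by
  classical
  have hp : 0 < p := (Fact.out : p.Prime).pos
  have hp1 : 0 < p - 1 := by
    have := (Fact.out : p.Prime).one_lt
    omega
  have hcK : Fintype.card (ZMod p) = p := ZMod.card p
  have h1 : 4 * n * (bad2 (ZMod p) n r).card ≤ p ^ (2 * n) := by
    have hb := card_bad2 (K := ZMod p) (n := n) r
    rw [hcK] at hb
    have h2 : 4 * n * (bad2 (ZMod p) n r).card * (p - 1) ^ r ≤ p ^ (2 * n) * (p - 1) ^ r := by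
      calc 4 * n * (bad2 (ZMod p) n r).card * (p - 1) ^ r
          = 4 * n * ((bad2 (ZMod p) n r).card * (p - 1) ^ r) := by ring
        _ ≤ 4 * n * ((n + 1) ^ (2 + 7 * n + 15 * r) * (8 ^ n * 4 ^ r) *
            p ^ (2 * n)) := Nat.mul_le_mul_left _ hb
        _ = 4 * n * ((n + 1) ^ (2 + 7 * n + 15 * r) * (8 ^ n * 4 ^ r)) *
            p ^ (2 * n) := by ring
        _ ≤ (p - 1) ^ r * p ^ (2 * n) := Nat.mul_le_mul_right _ h
        _ = p ^ (2 * n) * (p - 1) ^ r := by ring
    exact Nat.le_of_mul_le_mul_right h2 (pow_pos hp1 _)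
  have h2 : 4 * n * (coll (ZMod p) n).card ≤ p ^ (2 * n) := by
    have hb := card_coll (K := ZMod p) (n := n)
    rw [hcK] at hb
    have h3 : 4 * n * (coll (ZMod p) n).card * p ≤ p ^ (2 * n) * p := by
      calc 4 * n * (coll (ZMod p) n).card * p
          = 4 * n * ((coll (ZMod p) n).card * p) := by ring
        _ ≤ 4 * n * (n ^ 4 * p ^ (2 * n)) := Nat.mul_le_mul_left _ hb
        _ = (4 * n ^ 5) * p ^ (2 * n) := by ring
        _ ≤ p * p ^ (2 * n) := by
            refine Nat.mul_le_mul_right _ (le_trans ?_ h6)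
            calc 4 * n ^ 5 ≤ n * n ^ 5 := Nat.mul_le_mul_right _ hn
              _ = n ^ 6 := by ring
        _ = p ^ (2 * n) * p := by ring
    exact Nat.le_of_mul_le_mul_right h3 hp
  have h3 : (Bad3 p n r).card ≤ (bad2 (ZMod p) n r).card + (coll (ZMod p) n).card := by
    unfold Bad3
    exact card_image_le.trans (card_union_le _ _)
  have h4 : n * (Bad3 p n r).card ≤ n * ((bad2 (ZMod p) n r).card + (coll (ZMod p) n).card) :=
    Nat.mul_le_mul_left _ h3
  have h5 : n * ((bad2 (ZMod p) n r).card + (coll (ZMod p) n).card) =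
      n * (bad2 (ZMod p) n r).card + n * (coll (ZMod p) n).card := by ring
  have h6 : 4 * n * (bad2 (ZMod p) n r).card = 4 * (n * (bad2 (ZMod p) n r).card) := by ring
  have h7 : 4 * n * (coll (ZMod p) n).card = 4 * (n * (coll (ZMod p) n).card) := by ring
  omega

/-- **The exact lower bound.** -/
theorem lower4 (ε : ℝ) (hε : 0 < ε) (hε1 : ε < 1) :
    ∃ C n₀ : ℕ, ∀ n ≥ n₀, ∀ p : ℕ, p.Prime → n ^ C ≤ p →
      ∃ Bad : Finset ((Fin n → ZMod p) × (Fin n → ZMod p)), n * Bad.card ≤ p ^ (2 * n) ∧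
        ∀ a b, (a, b) ∉ Bad → ∀ (L : Type) [Finite L] (H T E F : ℕ)
          (P : Scheme (ZMod p) L H T),
          (E : ℝ) ≤ ε / 8 * (n : ℝ) ^ 2 → (F : ℝ) ≤ (p : ℝ) ^ (ε / 8) →
          (Nat.card {σ : ZMod p → L // Function.Injective σ ∧ Works P a b E F σ} : ℝ) *
              (p : ℝ) ^ ((n : ℝ) * (n - T) - ε * (n : ℝ) ^ 2) ≤
            H * Nat.card {σ : ZMod p → L // Function.Injective σ} := by
  classical
  obtain ⟨C, n0, hpar⟩ := params4 ε hε hε1
  refine ⟨C, n0, fun n hn p hp hnp => ?_⟩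
  obtain ⟨hn8, hpar⟩ := hpar n hn
  obtain ⟨h6, hcnt, hpar⟩ := hpar p hnp
  have : Fact p.Prime := ⟨hp⟩
  have hcK : Fintype.card (ZMod p) = p := ZMod.card p
  have hp2 : 2 < p := by
    have h1 : 8 ^ 6 ≤ n ^ 6 := Nat.pow_le_pow_left hn8 6
    have h2 : 2 < 8 ^ 6 := by norm_num
    omega
  have h2K : (2 : ZMod p) ≠ 0 := by
    intro h
    have h1 : ((2 : ℕ) : ZMod p) = 0 := by exact_mod_cast h
    rw [ZMod.natCast_eq_zero_iff] at h1
    have := Nat.le_of_dvd (by norm_num) h1
    omega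
  refine ⟨Bad3 p n ⌈ε * n / 192⌉₊, card_Bad3 p n _ (by omega) h6 hcnt, ?_⟩
  intro a b hab L hL H T E F P hE hF
  have : Fintype L := Fintype.ofFinite L
  have hc1 : Nat.card {σ : ZMod p → L // Function.Injective σ ∧ Works P a b E F σ} =
      (univ.filter (fun σ : ZMod p → L =>
        Function.Injective σ ∧ Works P a b E F σ)).card := by
    rw [Nat.card_eq_fintype_card, Fintype.card_subtype]
  have hc2 : Nat.card {σ : ZMod p → L // Function.Injective σ} =
      (univ.filter (fun σ : ZMod p → L => Function.Injective σ)).card := by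
    rw [Nat.card_eq_fintype_card, Fintype.card_subtype]
  rw [hc1, hc2]
  set S' := univ.filter (fun σ : ZMod p → L => Function.Injective σ ∧ Works P a b E F σ)
    with hS'
  set S := univ.filter (fun σ : ZMod p → L => Function.Injective σ) with hS
  have hSS : S' ⊆ S := by
    intro σ hσ
    rw [hS', mem_filter] at hσ
    rw [hS, mem_filter]
    exact ⟨hσ.1, hσ.2.1⟩
  have hp1 : (1 : ℝ) ≤ p := by exact_mod_cast hp.one_lt.le
  have hp0 : (0 : ℝ) < p := by linarith
  -- the trivial bound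
  have htriv : ∀ x : ℝ, x ≤ 1 → 0 ≤ x → (S'.card : ℝ) * x ≤ H * S.card := by
    intro x hx hx0
    rcases Nat.eq_zero_or_pos S'.card with h0 | h0
    · rw [h0]
      simp only [Nat.cast_zero, zero_mul]
      positivity
    · obtain ⟨σ, hσ⟩ := card_pos.mp h0
      rw [hS', mem_filter] at hσ
      obtain ⟨α, -⟩ := hσ.2.2
      have hH : 1 ≤ H := by
        have := α.2
        omega
      have h1 : (S'.card : ℝ) ≤ S.card := by exact_mod_cast card_le_card hSS
      have h2 : (1 : ℝ) ≤ H := by exact_mod_cast hH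
      have h3 : (0 : ℝ) ≤ S'.card := Nat.cast_nonneg _
      have h4 : (0 : ℝ) ≤ S.card := Nat.cast_nonneg _
      calc (S'.card : ℝ) * x ≤ S'.card * 1 := mul_le_mul_of_nonneg_left hx h3
        _ = S'.card := mul_one _
        _ ≤ S.card := h1
        _ = 1 * S.card := (one_mul _).symm
        _ ≤ H * S.card := mul_le_mul_of_nonneg_right h2 h4
  have hnR : (0 : ℝ) ≤ n := Nat.cast_nonneg _
  by_cases hT : T ≤ n
  swap
  · refine htriv _ ?_ (Real.rpow_nonneg hp0.le _)
    refine Real.rpow_le_one_of_one_le_of_nonpos hp1 ?_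
    have h1 : (n : ℝ) ≤ T := by
      have : n ≤ T := by omega
      exact_mod_cast this
    have h2 : (n : ℝ) * (n - T) ≤ 0 := mul_nonpos_of_nonneg_of_nonpos hnR (by linarith)
    have h3 : 0 ≤ ε * (n : ℝ) ^ 2 := by positivity
    linarith
  obtain ⟨M, hM, hfin⟩ := hpar T hT
  have hfin := hfin E F hE hF _ rfl
  set r := ⌈ε * n / 192⌉₊ with hr
  set m := n ^ 2 - n * (T + 12 * r) with hm
  by_cases hEm : E ≤ m
  swap
  · have h0 : m - E = 0 := by omega
    rw [h0, Nat.choose_zero_right, Nat.choose_zero_right, Nat.choose_zero_right] at hfin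
    simp only [Nat.cast_one, mul_one] at hfin
    exact htriv _ hfin (Real.rpow_nonneg hp0.le _)
  -- the main case
  have hf : (Sum.elim a b : Tri.Ix n → ZMod p) ∉ bad2 (ZMod p) n r ∪ coll (ZMod p) n := by
    intro h
    apply hab
    unfold Bad3
    rw [mem_image]
    exact ⟨Sum.elim a b, h, by simp⟩
  rw [mem_union, not_or] at hf
  have hinj := sm_injective _ hf.2
  have hmain := core2 P a b m M E F hEm
    (by
      intro α
      have hQ : (univ.image (P.query α)).card ≤ T := by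
        calc (univ.image (P.query α)).card ≤ (univ : Finset (Fin T)).card := card_image_le
          _ = T := by simp
      obtain ⟨X, hX, hself, hconf⟩ := select_all h2K (Sum.elim a b) hf.1 hinj
        (univ.image (P.query α)) (hQ.trans hT)
      have hX' : n ^ 2 ≤ X.card + n * (T + 12 * r) :=
        hX.trans (Nat.add_le_add_left (Nat.mul_le_mul_left _ (by omega)) _)
      refine ⟨X.image (sm (Sum.elim a b)), ?_, ?_, ?_, ?_⟩
      · rw [sums_eq2]
        exact image_subset_image (subset_univ _)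
      · rw [card_image_of_injective _ hinj]
        omega
      · intro z hz
        obtain ⟨x, hx, rfl⟩ := mem_image.mp hz
        have h1 := hself x hx
        convert h1
      · intro z hz z' hz' hne
        obtain ⟨x, hx, rfl⟩ := mem_image.mp hz
        obtain ⟨y, hy, rfl⟩ := mem_image.mp hz'
        have hxy : x ≠ y := fun h => hne (by rw [h])
        have h1 := hconf x hx y hy hxy
        convert h1)
    (by
      rw [hcK]
      refine le_trans ?_ hM
      have h1 : (sums a b).card * (T ^ 2 + 1) ≤ n ^ 2 * (T ^ 2 + 1) :=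
        Nat.mul_le_mul_right _ (card_sums_le a b)
      omega)
    S
    (by
      intro π σ hσ
      rw [hS, mem_filter] at hσ ⊢
      exact ⟨mem_univ _, hσ.2.comp π.injective⟩)
    S' hSS
    (by
      intro σ hσ
      rw [hS'] at hσ
      exact (mem_filter.mp hσ).2.2)
  have hmain' : (S'.card : ℝ) * ((M + m).choose (m - E) : ℝ) ≤
      H * (S.card * ((m.choose (m - E) : ℝ) * ((m + F).choose (m - E) : ℝ))) := by
    exact_mod_cast hmain
  have hpos : (0 : ℝ) < (m.choose (m - E) : ℝ) * ((m + F).choose (m - E) : ℝ) := by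
    have h1 : 0 < m.choose (m - E) := Nat.choose_pos (by omega)
    have h2 : 0 < (m + F).choose (m - E) := Nat.choose_pos (by omega)
    exact_mod_cast Nat.mul_pos h1 h2
  have h5 : (S'.card : ℝ) * (p : ℝ) ^ ((n : ℝ) * (n - T) - ε * (n : ℝ) ^ 2) *
      ((m.choose (m - E) : ℝ) * ((m + F).choose (m - E) : ℝ)) ≤
      (H * S.card) * ((m.choose (m - E) : ℝ) * ((m + F).choose (m - E) : ℝ)) := by
    calc (S'.card : ℝ) * (p : ℝ) ^ ((n : ℝ) * (n - T) - ε * (n : ℝ) ^ 2) *
          ((m.choose (m - E) : ℝ) * ((m + F).choose (m - E) : ℝ))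
        = (S'.card : ℝ) * ((p : ℝ) ^ ((n : ℝ) * (n - T) - ε * (n : ℝ) ^ 2) *
          (m.choose (m - E) : ℝ) * ((m + F).choose (m - E) : ℝ)) := by ring
      _ ≤ (S'.card : ℝ) * ((M + m).choose (m - E) : ℝ) :=
          mul_le_mul_of_nonneg_left hfin (by positivity)
      _ ≤ H * (S.card * ((m.choose (m - E) : ℝ) * ((m + F).choose (m - E) : ℝ))) := hmain'
      _ = (H * S.card) * ((m.choose (m - E) : ℝ) * ((m + F).choose (m - E) : ℝ)) := by ring
  exact le_of_mul_le_mul_right h5 hpos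

end Pool.Agent.GGZ
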